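import Mathlib

/-!
# Number fields: truncated counting functions and heights

The first lemmas on finite places are taken from `Pool.Agent.Q239.NF.Basic` (helper239).
-/

set_option autoImplicit false

namespace Pool.Agent.Q245.Vk

open NumberField IsDedekindDomain Height

variable {K : Type} [Field K] [NumberField K]

/-- the logarithm of the norm of the prime ideal -/
noncomputable def lN (v : FinitePlace K) : ℝ :=
  Real.log ((Ideal.absNorm v.maximalIdeal.asIdeal : ℕ) : ℝ)

lemma lN_nonneg (v : FinitePlace K) : 0 ≤ lN v := Real.log_natCast_nonneg _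

lemma N_pos (v : FinitePlace K) : (0 : ℝ) < ((Ideal.absNorm v.maximalIdeal.asIdeal : ℕ) : ℝ) := by
  have h3 : Ideal.absNorm v.maximalIdeal.asIdeal ≠ 0 := by
    rw [Ne, Ideal.absNorm_eq_zero_iff]
    exact v.maximalIdeal.ne_bot
  exact_mod_cast Nat.pos_of_ne_zero h3

/-- the values of a finite place -/
lemma fin_gap (v : FinitePlace K) {y : K} (hy : y ≠ 0) (h : v y < 1) :
    ((Ideal.absNorm v.maximalIdeal.asIdeal : ℕ) : ℝ) * v y ≤ 1 := by
  obtain ⟨a, b, hb, rfl⟩ := IsFractionRing.div_surjective (A := 𝓞 K) y
  have hb0 : b ≠ 0 := nonZeroDivisors.ne_zero hb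
  have ha0 : a ≠ 0 := by
    rintro rfl
    rw [map_zero, zero_div] at hy
    exact hy rfl
  have h1 := FinitePlace.apply_mul_absNorm_pow_eq_one v ha0
  have h2 := FinitePlace.apply_mul_absNorm_pow_eq_one v hb0
  set N : ℝ := ((Ideal.absNorm v.maximalIdeal.asIdeal : ℕ) : ℝ) with hN
  have hN1 : 1 ≤ N := by
    have h3 : Ideal.absNorm v.maximalIdeal.asIdeal ≠ 0 := by
      rw [Ne, Ideal.absNorm_eq_zero_iff]
      exact v.maximalIdeal.ne_bot
    have h4 : 1 ≤ Ideal.absNorm v.maximalIdeal.asIdeal := Nat.one_le_iff_ne_zero.2 h3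
    rw [hN]
    exact_mod_cast h4
  have hN0 : 0 < N := by linarith
  set i := multiplicity v.maximalIdeal.asIdeal (Ideal.span {a}) with hi
  set j := multiplicity v.maximalIdeal.asIdeal (Ideal.span {b}) with hj
  have hva : v (algebraMap (𝓞 K) K a) = (N ^ i)⁻¹ := eq_inv_of_mul_eq_one_left h1
  have hvb : v (algebraMap (𝓞 K) K b) = (N ^ j)⁻¹ := eq_inv_of_mul_eq_one_left h2
  rw [map_div₀, hva, hvb] at h ⊢
  have h5 : (N ^ i)⁻¹ / (N ^ j)⁻¹ = N ^ j / N ^ i := by field_simp
  rw [h5] at h ⊢
  have h6 : N ^ j < N ^ i := by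
    rw [div_lt_one (pow_pos hN0 _)] at h
    exact h
  have h7 : j < i := by
    by_contra hc
    exact absurd (pow_le_pow_right₀ hN1 (not_lt.1 hc)) (not_le.2 h6)
  rw [← mul_div_assoc, div_le_one (pow_pos hN0 _), ← pow_succ']
  exact pow_le_pow_right₀ hN1 h7

lemma gap_log (v : FinitePlace K) {y : K} (hy : y ≠ 0) (h : v y < 1) :
    lN v ≤ -Real.log (v y) := by
  have h1 := fin_gap v hy h
  have h2 : 0 < v y := v.1.pos hy
  have h3 := Real.log_le_log (mul_pos (N_pos v) h2) h1
  rw [Real.log_mul (N_pos v).ne' h2.ne', Real.log_one] at h3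
  unfold lN
  linarith

/-- the gap between two different values -/
lemma gap2 (v : FinitePlace K) {y z : K} (hy : y ≠ 0) (hz : z ≠ 0) (h : v y < v z) :
    lN v ≤ Real.log (v z) - Real.log (v y) := by
  have hy' : 0 < v y := v.1.pos hy
  have hz' : 0 < v z := v.1.pos hz
  have h1 : v (y / z) < 1 := by
    rw [map_div₀, div_lt_one hz']; exact h
  have h2 := gap_log v (div_ne_zero hy hz) h1
  rw [map_div₀, Real.log_div hy'.ne' hz'.ne'] at h2
  linarith

lemma fin_ne_one {c : K} (hc : c ≠ 0) : {v : FinitePlace K | v c ≠ 1}.Finite :=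
  FinitePlace.hasFiniteMulSupport hc

lemma int_le (v : FinitePlace K) (m : ℤ) : v (m : K) ≤ 1 := by
  have h : ((m : 𝓞 K) : K) = (m : K) := by
    rw [RingOfIntegers.coe_eq_algebraMap, map_intCast]
  rw [← h, ← FinitePlace.norm_embedding_eq]
  exact FinitePlace.norm_le_one K v.maximalIdeal _

lemma nat_le (v : FinitePlace K) (m : ℕ) : v (m : K) ≤ 1 := by
  exact_mod_cast int_le v (m : ℤ)

lemma inf_int (w : InfinitePlace K) (m : ℤ) : w (m : K) = |(m : ℝ)| := by
  have := InfinitePlace.norm_embedding_eq w (m : K)
  rw [← this, map_intCast]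
  simp

lemma inf_nat (w : InfinitePlace K) (m : ℕ) : w (m : K) = m := by
  have := inf_int w (m : ℤ)
  push_cast at this
  rw [this]
  exact abs_of_nonneg (Nat.cast_nonneg m)

/-- the product formula -/
lemma sum_log {y : K} (hy : y ≠ 0) :
    ∑ w : InfinitePlace K, (w.mult : ℝ) * Real.log (w y) +
      ∑ᶠ v : FinitePlace K, Real.log (v y) = 0 := by
  have h := prod_abs_eq_one hy
  have hw : ∀ w : InfinitePlace K, 0 < w y := fun w => w.1.pos hy
  have hv : ∀ v : FinitePlace K, 0 < v y := fun v => v.1.pos hy
  have h1 : (∏ w : InfinitePlace K, w y ^ w.mult) ≠ 0 :=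
    (Finset.prod_pos fun w _ => pow_pos (hw w) _).ne'
  have h2 : (∏ᶠ v : FinitePlace K, v y) ≠ 0 := by
    intro h2
    rw [h2, mul_zero] at h
    exact zero_ne_one h
  have h3 := congrArg Real.log h
  rw [Real.log_mul h1 h2, Real.log_one, Real.log_prod (fun w _ => (pow_pos (hw w) _).ne'),
    Real.log_finprod hv] at h3
  rw [← h3]
  congr 1
  refine Finset.sum_congr rfl fun w _ => ?_
  rw [Real.log_pow]

/-- the degree -/
lemma sum_mult : ∑ w : InfinitePlace K, (w.mult : ℝ) = Module.finrank ℚ K := by
  have := InfinitePlace.sum_mult_eq (K := K)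
  exact_mod_cast this

lemma sum_mult_log {c : ℝ} :
    ∑ w : InfinitePlace K, (w.mult : ℝ) * c = Module.finrank ℚ K * c := by
  rw [← Finset.sum_mul, sum_mult]

lemma sum_log_nat {c : ℕ} (hc : c ≠ 0) :
    ∑ᶠ v : FinitePlace K, Real.log (v (c : K)) = -(Module.finrank ℚ K * Real.log c) := by
  have h1 := sum_log (K := K) (y := (c : K)) (by exact_mod_cast hc)
  simp only [inf_nat] at h1
  rw [sum_mult_log] at h1
  linarith

lemma log_support {y : K} (hy : y ≠ 0) :
    (Function.support fun v : FinitePlace K => Real.log (v y)).Finite := by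
  refine (fin_ne_one hy).subset fun v hv => ?_
  simp only [Set.mem_ofPred_eq]
  intro h1
  apply hv
  simp only [h1, Real.log_one]

lemma max_finite (z : K) : {v : FinitePlace K | max (v z) 1 ≠ 1}.Finite := by
  by_cases hz : z = 0
  · have : {v : FinitePlace K | max (v z) 1 ≠ 1} = ∅ := by
      ext v
      simp [hz]
    rw [this]; exact Set.finite_empty
  · refine (fin_ne_one hz).subset fun v hv => ?_
    simp only [Set.mem_ofPred_eq] at hv ⊢
    intro h1
    exact hv (by rw [h1, max_self])

lemma max_support (z : K) :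
    (Function.support fun v : FinitePlace K => Real.log (max (v z) 1)).Finite := by
  refine (max_finite z).subset fun v hv => ?_
  simp only [Set.mem_ofPred_eq]
  intro h1
  apply hv
  simp only [h1, Real.log_one]

lemma max2_support (a : K) {b : K} (hb : b ≠ 0) :
    (Function.support fun v : FinitePlace K => Real.log (max (v a) (v b))).Finite := by
  by_cases ha : a = 0
  · subst ha
    refine (log_support hb).subset fun v hv => ?_
    intro h1
    apply hv
    have h2 : (0 : ℝ) ≤ v b := v.1.nonneg b
    simp only [map_zero] at h1 ⊢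
    rw [max_eq_right h2]
    exact h1
  refine ((fin_ne_one ha).union (fin_ne_one hb)).subset fun v hv => ?_
  by_contra hcon
  rw [Set.mem_union, not_or] at hcon
  simp only [Set.mem_ofPred_eq, not_not] at hcon
  apply hv
  simp only [hcon.1, hcon.2, max_self, Real.log_one]

/-- the height of a number -/
lemma height1 (z : K) :
    logHeight₁ z = ∑ w : InfinitePlace K, (w.mult : ℝ) * Real.log (max (w z) 1) +
      ∑ᶠ v : FinitePlace K, Real.log (max (v z) 1) := by
  rw [NumberField.logHeight₁_eq]
  congr 1
  · refine Finset.sum_congr rfl fun w _ => ?_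
    have h : (0 : ℝ) ≤ w z := w.1.nonneg z
    rw [Real.posLog_eq_log_max_one h, max_comm]
  · refine finsum_congr fun v => ?_
    have h : (0 : ℝ) ≤ v z := v.1.nonneg z
    rw [Real.posLog_eq_log_max_one h, max_comm]

/-- the height of a quotient -/
lemma height2 (a : K) {b : K} (hb : b ≠ 0) :
    logHeight₁ (a / b) = ∑ w : InfinitePlace K, (w.mult : ℝ) * Real.log (max (w a) (w b)) +
      ∑ᶠ v : FinitePlace K, Real.log (max (v a) (v b)) := by
  rw [height1]
  have e1 : ∀ v : AbsoluteValue K ℝ, Real.log (max (v (a / b)) 1)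
      = Real.log (max (v a) (v b)) - Real.log (v b) := by
    intro v
    have hb' : 0 < v b := v.pos hb
    have : max (v (a / b)) 1 = max (v a) (v b) / v b := by
      rw [map_div₀]
      rw [← div_self hb'.ne', max_div_div_right hb'.le]
    rw [this, Real.log_div (lt_max_of_lt_right hb').ne' hb'.ne']
  have e2 : ∑ w : InfinitePlace K, (w.mult : ℝ) * Real.log (max (w (a / b)) 1)
      = ∑ w : InfinitePlace K, (w.mult : ℝ) * Real.log (max (w a) (w b))
        - ∑ w : InfinitePlace K, (w.mult : ℝ) * Real.log (w b) := by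
    rw [← Finset.sum_sub_distrib]
    refine Finset.sum_congr rfl fun w _ => ?_
    have := e1 w.1
    change (w.mult : ℝ) * Real.log (max (w.1 (a / b)) 1) = _
    rw [this]
    change (w.mult : ℝ) * (Real.log (max (w a) (w b)) - Real.log (w b)) = _
    ring
  have e3 : ∑ᶠ v : FinitePlace K, Real.log (max (v (a / b)) 1)
      = ∑ᶠ v : FinitePlace K, Real.log (max (v a) (v b))
        - ∑ᶠ v : FinitePlace K, Real.log (v b) := by
    rw [← finsum_sub_distrib (max2_support a hb) (log_support hb)]
    refine finsum_congr fun v => ?_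
    exact e1 v.1
  rw [e2, e3]
  have := sum_log hb
  linarith

lemma height_int {δ : ℤ} (hδ : δ ≠ 0) :
    logHeight₁ (δ : K) = Module.finrank ℚ K * Real.log |(δ : ℝ)| := by
  rw [height1]
  have h1 : ∑ᶠ v : FinitePlace K, Real.log (max (v (δ : K)) 1) = 0 := by
    have : ∀ v : FinitePlace K, Real.log (max (v (δ : K)) 1) = 0 := by
      intro v
      rw [max_eq_right (int_le v δ), Real.log_one]
    simp only [this, finsum_zero]
  have h2 : (1 : ℝ) ≤ |(δ : ℝ)| := by exact_mod_cast Int.one_le_abs hδ
  simp only [inf_int]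
  rw [h1, max_eq_left h2, sum_mult_log, add_zero]

/-- **Transfer of the counting function.** -/
theorem transfer (z E : K) (c : ℕ) (hc : c ≠ 0) (e : ℕ) (C : ℝ) (hC : 0 < C) (hE : E ≠ 0)
    (S S' : Set (FinitePlace K)) (hS : S.Finite)
    (hfin : ∀ v : FinitePlace K, v E ≤ (max (v z) 1) ^ e)
    (hinf : ∀ w : InfinitePlace K, w E ≤ C * (max (w z) 1) ^ e)
    (hloc : ∀ v : FinitePlace K, v ∉ S → v (c : K) = 1 → v E = (max (v z) 1) ^ e → v ∉ S') :
    ∑ᶠ v ∈ S', lN v ≤ ∑ᶠ v ∈ S, lN v + e * logHeight₁ z
      + Module.finrank ℚ K * (Real.log c + Real.log C) := by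
  classical
  have hc0 : (c : K) ≠ 0 := by exact_mod_cast hc
  set f : FinitePlace K → ℝ := S.indicator lN with hf
  set g : FinitePlace K → ℝ := fun v => -Real.log (v (c : K)) with hg
  set h : FinitePlace K → ℝ := fun v => e * Real.log (max (v z) 1) - Real.log (v E) with hh
  have hf0 : ∀ v, 0 ≤ f v := fun v => Set.indicator_nonneg (fun v _ => lN_nonneg v) v
  have hg0 : ∀ v, 0 ≤ g v := fun v => by
    have h1 : v (c : K) ≤ 1 := nat_le v c
    have h2 : 0 < v (c : K) := v.1.pos hc0
    have := Real.log_nonpos h2.le h1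
    simp only [hg]; linarith
  have hh0 : ∀ v, 0 ≤ h v := fun v => by
    have h1 := hfin v
    have h2 : 0 < v E := v.1.pos hE
    have h3 := Real.log_le_log h2 h1
    rw [Real.log_pow] at h3
    simp only [hh]; linarith
  have hsf : (Function.support f).Finite := hS.subset Set.support_indicator_subset
  have hsg : (Function.support g).Finite := by
    refine (fin_ne_one hc0).subset fun v hv => ?_
    simp only [Set.mem_ofPred_eq]
    intro h1
    apply hv
    simp only [hg, h1, Real.log_one, neg_zero]
  have hs1 : (Function.support fun v : FinitePlace K => (e : ℝ) * Real.log (max (v z) 1)).Finite := by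
    refine (max_support z).subset fun v hv => ?_
    intro h1
    apply hv
    simp only at h1 ⊢
    rw [h1, mul_zero]
  have hs2 := log_support hE
  have hsh : (Function.support h).Finite := by
    refine (hs1.union hs2).subset fun v hv => ?_
    by_contra hcon
    rw [Set.mem_union, not_or, Function.notMem_support, Function.notMem_support] at hcon
    apply hv
    simp only [hh]
    rw [hcon.1, hcon.2, sub_zero]
  have key : ∀ v, S'.indicator lN v ≤ f v + g v + h v := by
    intro v
    by_cases hb : v ∈ S'
    · rw [Set.indicator_of_mem hb]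
      by_cases hbx : v ∈ S
      · have : f v = lN v := Set.indicator_of_mem hbx _
        have := hg0 v
        have := hh0 v
        linarith
      · by_cases hc1 : v (c : K) = 1
        · have hne : v E ≠ (max (v z) 1) ^ e := fun h1 => hloc v hbx hc1 h1 hb
          have hlt : v E < (max (v z) 1) ^ e := lt_of_le_of_ne (hfin v) hne
          have h2 : lN v ≤ h v := by
            rcases le_total (v z) 1 with hz | hz
            · rw [max_eq_right hz, one_pow] at hlt
              have := gap_log v hE hlt
              simp only [hh]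
              rw [max_eq_right hz, Real.log_one, mul_zero]
              linarith
            · have hz0 : z ≠ 0 := by
                rintro rfl
                rw [map_zero] at hz
                linarith
              rw [max_eq_left hz] at hlt
              have := gap2 v (y := E) (z := z ^ e) hE (pow_ne_zero _ hz0)
                (by rw [map_pow]; exact hlt)
              rw [map_pow, Real.log_pow] at this
              simp only [hh]
              rw [max_eq_left hz]
              exact this
          have := hf0 v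
          have := hg0 v
          linarith
        · have h1 : v (c : K) < 1 := lt_of_le_of_ne (nat_le v c) hc1
          have h2 := gap_log v hc0 h1
          have h3 : g v = -Real.log (v (c : K)) := rfl
          have := hf0 v
          have := hh0 v
          linarith
    · rw [Set.indicator_of_notMem hb]
      have := hf0 v
      have := hg0 v
      have := hh0 v
      linarith
  have hS' : S'.Finite := by
    refine ((hS.union (fin_ne_one hc0)).union ((max_finite z).union (fin_ne_one hE))).subset
      fun v hv => ?_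
    by_contra hcon
    simp only [Set.mem_union, not_or, Set.mem_ofPred_eq, not_not] at hcon
    obtain ⟨⟨h1, h2⟩, h3, h4⟩ := hcon
    exact hloc v h1 h2 (by rw [h3, h4, one_pow]) hv
  have hsum : ∑ᶠ v ∈ S', lN v ≤ ∑ᶠ v, f v + ∑ᶠ v, g v + ∑ᶠ v, h v := by
    rw [finsum_mem_def, ← finsum_add_distrib hsf hsg, ← finsum_add_distrib _ hsh]
    · refine finsum_le_finsum' ?_ ?_ key
      · exact hS'.subset Set.support_indicator_subset
      · refine ((hsf.union hsg).union hsh).subset ?_
        refine (Function.support_add _ _).trans (Set.union_subset_union_left _ ?_)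
        exact Function.support_add _ _
    · exact (hsf.union hsg).subset (Function.support_add _ _)
  have hG : ∑ᶠ v, g v = Module.finrank ℚ K * Real.log c := by
    have h1 := sum_log_nat (K := K) hc
    have h2 : ∑ᶠ v, g v = -∑ᶠ v : FinitePlace K, Real.log (v (c : K)) := by
      rw [← finsum_neg_distrib]
    linarith
  have hH : ∑ᶠ v, h v ≤ e * logHeight₁ z + Module.finrank ℚ K * Real.log C := by
    have h1 : ∑ᶠ v, h v = ∑ᶠ v : FinitePlace K, (e : ℝ) * Real.log (max (v z) 1) -
        ∑ᶠ v : FinitePlace K, Real.log (v E) := finsum_sub_distrib hs1 hs2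
    have h2 : ∑ᶠ v : FinitePlace K, (e : ℝ) * Real.log (max (v z) 1) =
        e * ∑ᶠ v : FinitePlace K, Real.log (max (v z) 1) := by
      rw [mul_finsum]
    have h3 := sum_log hE
    have h4 := height1 z
    have h5 : ∑ w : InfinitePlace K, (w.mult : ℝ) * Real.log (w E) ≤
        ∑ w : InfinitePlace K, (w.mult : ℝ) * (Real.log C + e * Real.log (max (w z) 1)) := by
      refine Finset.sum_le_sum fun w _ => ?_
      have h6 : 0 < w E := w.1.pos hE
      have h7 : 0 < max (w z) 1 := lt_max_of_lt_right one_pos
      have h8 := Real.log_le_log h6 (hinf w)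
      rw [Real.log_mul hC.ne' (pow_pos h7 _).ne', Real.log_pow] at h8
      exact mul_le_mul_of_nonneg_left h8 (Nat.cast_nonneg _)
    have h9 : ∑ w : InfinitePlace K, (w.mult : ℝ) * (Real.log C + e * Real.log (max (w z) 1)) =
        Module.finrank ℚ K * Real.log C +
        e * ∑ w : InfinitePlace K, (w.mult : ℝ) * Real.log (max (w z) 1) := by
      rw [← sum_mult_log, Finset.mul_sum, ← Finset.sum_add_distrib]
      refine Finset.sum_congr rfl fun w _ => ?_
      ring
    have h10 : (e : ℝ) * logHeight₁ z =
        e * (∑ w : InfinitePlace K, (w.mult : ℝ) * Real.log (max (w z) 1)) +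
        e * ∑ᶠ v : FinitePlace K, Real.log (max (v z) 1) := by
      rw [h4]; ring
    linarith
  have hF : ∑ᶠ v, f v = ∑ᶠ v ∈ S, lN v := by rw [finsum_mem_def]
  linarith

/-- **Lower bound for the height of a quotient.** -/
theorem height_lower (z a b : K) (hb : b ≠ 0) (c : ℕ) (hc : c ≠ 0) (D : ℕ) (C : ℝ)
    (hC : 0 < C)
    (hfin : ∀ v : FinitePlace K, v (c : K) * (max (v z) 1) ^ D ≤ max (v a) (v b))
    (hinf : ∀ w : InfinitePlace K, (max (w z) 1) ^ D ≤ C * max (w a) (w b)) :
    D * logHeight₁ z ≤ logHeight₁ (a / b)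
      + Module.finrank ℚ K * (Real.log c + Real.log C) := by
  have hc0 : (c : K) ≠ 0 := by exact_mod_cast hc
  rw [height2 a hb, height1 z]
  have h1 : ∑ᶠ v : FinitePlace K, (Real.log (v (c : K)) + D * Real.log (max (v z) 1))
      ≤ ∑ᶠ v : FinitePlace K, Real.log (max (v a) (v b)) := by
    refine finsum_le_finsum' ?_ (max2_support a hb) fun v => ?_
    · refine ((log_support hc0).union (max_support z)).subset fun v hv => ?_
      by_contra hcon
      rw [Set.mem_union, not_or, Function.notMem_support, Function.notMem_support] at hcon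
      apply hv
      simp only
      rw [hcon.1, hcon.2, mul_zero, add_zero]
    · have h2 : 0 < v (c : K) := v.1.pos hc0
      have h3 : 0 < (max (v z) 1) ^ D := pow_pos (lt_max_of_lt_right one_pos) _
      have h4 := Real.log_le_log (mul_pos h2 h3) (hfin v)
      rwa [Real.log_mul h2.ne' h3.ne', Real.log_pow] at h4
  have hs1 : (Function.support fun v : FinitePlace K => (D : ℝ) * Real.log (max (v z) 1)).Finite := by
    refine (max_support z).subset fun v hv => ?_
    intro h1
    apply hv
    simp only at h1 ⊢
    rw [h1, mul_zero]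
  rw [finsum_add_distrib (log_support hc0) hs1, sum_log_nat hc, ← mul_finsum] at h1
  have h2 : ∑ w : InfinitePlace K, (w.mult : ℝ) * (D * Real.log (max (w z) 1))
      ≤ ∑ w : InfinitePlace K, (w.mult : ℝ) * (Real.log C + Real.log (max (w a) (w b))) := by
    refine Finset.sum_le_sum fun w _ => ?_
    apply mul_le_mul_of_nonneg_left _ (Nat.cast_nonneg _)
    have h3 : 0 < (max (w z) 1) ^ D := pow_pos (lt_max_of_lt_right one_pos) _
    have h4 : 0 < max (w a) (w b) := lt_max_of_lt_right (w.1.pos hb)
    have h5 := Real.log_le_log h3 (hinf w)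
    rwa [Real.log_mul hC.ne' h4.ne', Real.log_pow] at h5
  have h3 : ∑ w : InfinitePlace K, (w.mult : ℝ) * (Real.log C + Real.log (max (w a) (w b)))
      = Module.finrank ℚ K * Real.log C
        + ∑ w : InfinitePlace K, (w.mult : ℝ) * Real.log (max (w a) (w b)) := by
    rw [← sum_mult_log, ← Finset.sum_add_distrib]
    refine Finset.sum_congr rfl fun w _ => ?_
    ring
  have h4 : ∑ w : InfinitePlace K, (w.mult : ℝ) * (D * Real.log (max (w z) 1))
      = D * ∑ w : InfinitePlace K, (w.mult : ℝ) * Real.log (max (w z) 1) := by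
    rw [Finset.mul_sum]
    refine Finset.sum_congr rfl fun w _ => ?_
    ring
  rw [h3, h4] at h2
  have h5 : (D : ℝ) * (∑ w : InfinitePlace K, (w.mult : ℝ) * Real.log (max (w z) 1)
      + ∑ᶠ v : FinitePlace K, Real.log (max (v z) 1))
      = D * ∑ w : InfinitePlace K, (w.mult : ℝ) * Real.log (max (w z) 1)
      + D * ∑ᶠ v : FinitePlace K, Real.log (max (v z) 1) := by ring
  rw [h5]
  linarith

end Pool.Agent.Q245.Vk
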