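import Pool.Agent.Q245.Vk.Ext

set_option autoImplicit false
set_option maxHeartbeats 1000000

namespace Pool.Agent.Q245.Vk

open NumberField Height IsDedekindDomain IntermediateField

theorem nfa (x : AlgebraicClosure ℚ) : NumberField ℚ⟮x⟯ := by
  have h : IsIntegral ℚ x := (AlgebraicClosure.isAlgebraic ℚ).isAlgebraic x |>.isIntegral
  have := IntermediateField.adjoin.finiteDimensional h
  exact { to_charZero := inferInstance, to_finiteDimensional := inferInstance }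

noncomputable def height (x : AlgebraicClosure ℚ) : ℝ :=
  haveI := nfa x
  logHeight₁ (AdjoinSimple.gen ℚ x) / (Module.finrank ℚ ℚ⟮x⟯ : ℝ)

noncomputable def logDisc (x : AlgebraicClosure ℚ) : ℝ :=
  haveI := nfa x
  Real.log |(discr ℚ⟮x⟯ : ℝ)| / (Module.finrank ℚ ℚ⟮x⟯ : ℝ)

noncomputable def count0 (x : AlgebraicClosure ℚ) : ℝ :=
  haveI := nfa x
  (∑ᶠ v ∈ S0 (AdjoinSimple.gen ℚ x), lN v) / (Module.finrank ℚ ℚ⟮x⟯ : ℝ)

noncomputable def countm (δ : ℤ) (x : AlgebraicClosure ℚ) : ℝ :=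
  haveI := nfa x
  (∑ᶠ v ∈ Sm δ (AdjoinSimple.gen ℚ x), lN v) / (Module.finrank ℚ ℚ⟮x⟯ : ℝ)

def E0 (A : Set (AlgebraicClosure ℚ)) : Prop :=
  ∀ ε : ℝ, 0 < ε → ∃ C : ℝ, ∀ x ∈ A, x ≠ 0 → x ≠ 1 →
    (1 - ε) * height x ≤ count0 x + logDisc x + C

def Em (δ : ℤ) (A : Set (AlgebraicClosure ℚ)) : Prop :=
  ∀ ε : ℝ, 0 < ε → ∃ C : ℝ, ∀ t ∈ A, t ^ 2 ≠ (δ : AlgebraicClosure ℚ) →
    (1 - ε) * height t ≤ countm δ t + logDisc t + C

/-- the fields with an embedding whose image is in `A` -/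
def CC (A : Set (AlgebraicClosure ℚ)) (K : Type) [Field K] [NumberField K] : Prop :=
  ∃ σ : K →+* AlgebraicClosure ℚ, ∀ y, σ y ∈ A

/-- the embedding of `ℚ(σ x)` into `K` -/
lemma exists_emb {K : Type} [Field K] [NumberField K] (σ : K →+* AlgebraicClosure ℚ) (x : K) :
    ∃ i : ℚ⟮σ x⟯ →+* K, i (AdjoinSimple.gen ℚ (σ x)) = x := by
  have hint : IsIntegral ℚ x := Algebra.IsIntegral.isIntegral x
  let σ' : K →ₐ[ℚ] AlgebraicClosure ℚ := σ.toRatAlgHom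
  have e1 : ℚ⟮σ' x⟯ = (ℚ⟮x⟯).map σ' := by
    rw [IntermediateField.adjoin_map, Set.image_singleton]
  let e := (IntermediateField.equivMap ℚ⟮x⟯ σ')
  have e2 : (ℚ⟮σ x⟯ : IntermediateField ℚ (AlgebraicClosure ℚ)) = (ℚ⟮x⟯).map σ' := e1
  let j : ℚ⟮σ x⟯ →+* ((ℚ⟮x⟯).map σ' : IntermediateField ℚ (AlgebraicClosure ℚ)) :=
    (IntermediateField.inclusion e2.le).toRingHom
  let i : ℚ⟮σ x⟯ →+* K := ((ℚ⟮x⟯).val.toRingHom.comp e.symm.toAlgHom.toRingHom).comp j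
  refine ⟨i, ?_⟩
  apply σ.injective
  have key : ∀ y : ((ℚ⟮x⟯).map σ' : IntermediateField ℚ (AlgebraicClosure ℚ)),
      σ ((e.symm y : ℚ⟮x⟯) : K) = y := by
    intro y
    obtain ⟨u, rfl⟩ := e.surjective y
    rw [AlgEquiv.symm_apply_apply]
    rfl
  have := key (j (AdjoinSimple.gen ℚ (σ x)))
  exact this

lemma core {F K : Type} [Field F] [NumberField F] [Field K] [NumberField K] [Algebra F K]
    (g : F) (s t ε C : ℝ)
    (h : (1 - ε) * (logHeight₁ g / (Module.finrank ℚ F : ℝ)) ≤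
      s / (Module.finrank ℚ F : ℝ) + Real.log |(discr F : ℝ)| / (Module.finrank ℚ F : ℝ) + C)
    (hrel : (Module.finrank F K : ℝ) * (Real.log |(discr F : ℝ)| + s)
      ≤ Real.log |(discr K : ℝ)| + t) :
    (1 - ε) * logHeight₁ (algebraMap F K g) ≤ t + Real.log |(discr K : ℝ)|
      + C * Module.finrank ℚ K := by
  have hfd : FiniteDimensional F K := Module.Finite.of_restrictScalars_finite ℚ F K
  have hF0 : (0 : ℝ) < (Module.finrank ℚ F : ℝ) := by exact_mod_cast Module.finrank_pos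
  have hm0 : (0 : ℝ) < (Module.finrank F K : ℝ) := by exact_mod_cast Module.finrank_pos
  have h3 : (Module.finrank ℚ K : ℝ) = (Module.finrank ℚ F : ℝ) * (Module.finrank F K : ℝ) := by
    exact_mod_cast (Module.finrank_mul_finrank ℚ F K).symm
  rw [ht_ext, h3]
  have h4 := mul_le_mul_of_nonneg_right h (mul_nonneg hF0.le hm0.le)
  have e1 : (1 - ε) * (logHeight₁ g / (Module.finrank ℚ F : ℝ)) *
      ((Module.finrank ℚ F : ℝ) * (Module.finrank F K : ℝ)) =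
      (1 - ε) * ((Module.finrank F K : ℝ) * logHeight₁ g) := by
    field_simp
  have e2 : (s / (Module.finrank ℚ F : ℝ) + Real.log |(discr F : ℝ)| / (Module.finrank ℚ F : ℝ)
      + C) * ((Module.finrank ℚ F : ℝ) * (Module.finrank F K : ℝ)) =
      (Module.finrank F K : ℝ) * (Real.log |(discr F : ℝ)| + s)
      + C * ((Module.finrank ℚ F : ℝ) * (Module.finrank F K : ℝ)) := by
    field_simp
    ring
  rw [e1, e2] at h4
  linarith

lemma core2 {F : Type} [Field F] [NumberField F] (g : F) (s ε C : ℝ)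
    (h : (1 - ε) * logHeight₁ g ≤ s + Real.log |(discr F : ℝ)| + C * Module.finrank ℚ F) :
    (1 - ε) * (logHeight₁ g / (Module.finrank ℚ F : ℝ)) ≤
      s / (Module.finrank ℚ F : ℝ) + Real.log |(discr F : ℝ)| / (Module.finrank ℚ F : ℝ) + C := by
  have hF0 : (0 : ℝ) < (Module.finrank ℚ F : ℝ) := by exact_mod_cast Module.finrank_pos
  have h4 := div_le_div_of_nonneg_right h hF0.le
  have e1 : (1 - ε) * logHeight₁ g / (Module.finrank ℚ F : ℝ) =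
      (1 - ε) * (logHeight₁ g / (Module.finrank ℚ F : ℝ)) := by ring
  have e2 : (s + Real.log |(discr F : ℝ)| + C * Module.finrank ℚ F) / (Module.finrank ℚ F : ℝ)
      = s / (Module.finrank ℚ F : ℝ) + Real.log |(discr F : ℝ)| / (Module.finrank ℚ F : ℝ) + C := by
    field_simp
  rw [e1, e2] at h4
  exact h4

lemma gen_coe (x : AlgebraicClosure ℚ) : ((AdjoinSimple.gen ℚ x : ℚ⟮x⟯) : AlgebraicClosure ℚ) = x :=
  AdjoinSimple.coe_gen ℚ x

theorem V0_of_E0 (A : Set (AlgebraicClosure ℚ)) (h : E0 A) : V0 (CC A) := by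
  intro ε hε
  obtain ⟨C, hC⟩ := h ε hε
  refine ⟨C, ?_⟩
  intro K _ _ hK x hx0 hx1
  obtain ⟨σ, hσ⟩ := hK
  haveI := nfa (σ x)
  obtain ⟨i, hi⟩ := exists_emb σ x
  letI : Algebra ℚ⟮σ x⟯ K := i.toAlgebra
  have hσ0 : σ x ≠ 0 := (map_ne_zero σ).mpr hx0
  have hσ1 : σ x ≠ 1 := fun h => hx1 (σ.injective (by rw [h, map_one]))
  have h1 := hC (σ x) (hσ x) hσ0 hσ1
  set g : ℚ⟮σ x⟯ := AdjoinSimple.gen ℚ (σ x) with hg
  have hgx : algebraMap ℚ⟮σ x⟯ K g = x := hi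
  have hg0 : g ≠ 0 := by
    intro h0
    apply hx0
    rw [← hgx, h0, map_zero]
  have hg1 : g ≠ 1 := by
    intro h0
    apply hx1
    rw [← hgx, h0, map_one]
  have h2 := rel (F := ℚ⟮σ x⟯) (K := K) (S0 g) (S0_finite hg0 hg1) (S0 x) (S0_finite hx0 hx1)
    (by
      intro v w hwv hv hw
      apply hv
      obtain ⟨a, b⟩ := hw
      rw [← hgx] at a b
      constructor
      · exact (over_one v w g).mp a
      · rw [← over_one (K := K) v w, map_sub, map_one]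
        exact b)
  have h3 := core (K := K) g _ _ ε C h1 h2
  rw [hgx] at h3
  exact h3

theorem E0_of_V0 (A : Set (AlgebraicClosure ℚ)) (hA : ∀ x ∈ A, ∀ y ∈ ℚ⟮x⟯, y ∈ A)
    (h : V0 (CC A)) : E0 A := by
  intro ε hε
  obtain ⟨C, hC⟩ := h ε hε
  refine ⟨C, ?_⟩
  intro x hx hx0 hx1
  haveI := nfa x
  have hCC : CC A ℚ⟮x⟯ := ⟨(ℚ⟮x⟯).val.toRingHom, fun y => hA x hx _ y.2⟩
  refine core2 (AdjoinSimple.gen ℚ x) _ ε C (hC ℚ⟮x⟯ hCC (AdjoinSimple.gen ℚ x) ?_ ?_)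
  · intro h0
    apply hx0
    have := congrArg (fun y : ℚ⟮x⟯ => (y : AlgebraicClosure ℚ)) h0
    simpa using this
  · intro h0
    apply hx1
    have := congrArg (fun y : ℚ⟮x⟯ => (y : AlgebraicClosure ℚ)) h0
    simpa using this

theorem Vm_of_Em (δ : ℤ) (A : Set (AlgebraicClosure ℚ)) (h : Em δ A) : Vm (CC A) δ := by
  intro ε hε
  obtain ⟨C, hC⟩ := h ε hε
  refine ⟨C, ?_⟩
  intro K _ _ hK x hx
  obtain ⟨σ, hσ⟩ := hK
  haveI := nfa (σ x)
  obtain ⟨i, hi⟩ := exists_emb σ x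
  letI : Algebra ℚ⟮σ x⟯ K := i.toAlgebra
  have hσ0 : (σ x) ^ 2 ≠ (δ : AlgebraicClosure ℚ) := by
    intro h0
    apply hx
    apply σ.injective
    rw [map_pow, h0, map_intCast]
  have h1 := hC (σ x) (hσ x) hσ0
  set g : ℚ⟮σ x⟯ := AdjoinSimple.gen ℚ (σ x) with hg
  have hgx : algebraMap ℚ⟮σ x⟯ K g = x := hi
  have hg0 : g ^ 2 - δ ≠ 0 := by
    intro h0
    apply hx
    rw [← hgx, ← map_pow, sub_eq_zero.mp h0, map_intCast]
  have h2 := rel (F := ℚ⟮σ x⟯) (K := K) (Sm δ g) (Sm_finite hg0) (Sm δ x)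
    (Sm_finite (sub_ne_zero.mpr hx))
    (by
      intro v w hwv hv
      rcases hv with a | a
      · left
        rw [← hgx]
        exact (over_gt v w g).mpr a
      · right
        have e : x ^ 2 - (δ : K) = algebraMap ℚ⟮σ x⟯ K (g ^ 2 - δ) := by
          rw [map_sub, map_pow, hgx, map_intCast]
        rw [e]
        exact (over_lt v w _).mpr a)
  have h3 := core (K := K) g _ _ ε C h1 h2
  rw [hgx] at h3
  exact h3

theorem Em_of_Vm (δ : ℤ) (A : Set (AlgebraicClosure ℚ)) (hA : ∀ x ∈ A, ∀ y ∈ ℚ⟮x⟯, y ∈ A)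
    (h : Vm (CC A) δ) : Em δ A := by
  intro ε hε
  obtain ⟨C, hC⟩ := h ε hε
  refine ⟨C, ?_⟩
  intro x hx hx0
  haveI := nfa x
  have hCC : CC A ℚ⟮x⟯ := ⟨(ℚ⟮x⟯).val.toRingHom, fun y => hA x hx _ y.2⟩
  refine core2 (AdjoinSimple.gen ℚ x) _ ε C (hC ℚ⟮x⟯ hCC (AdjoinSimple.gen ℚ x) ?_)
  intro h0
  apply hx0
  have := congrArg (fun y : ℚ⟮x⟯ => (y : AlgebraicClosure ℚ)) h0
  simpa using this

theorem main_exact (δ : ℤ) (j : ℕ) (m : ℤ) (hm : Odd m) (hδ : δ = 4 ^ j * m)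
    (A : Set (AlgebraicClosure ℚ)) (hA : ∀ x ∈ A, ∀ y ∈ ℚ⟮x⟯, y ∈ A) : Em δ A ↔ E0 A :=
  ⟨fun h => E0_of_V0 A hA ((main (CC A) δ j m hm hδ).mp (Vm_of_Em δ A h)),
    fun h => Em_of_Vm δ A hA ((main (CC A) δ j m hm hδ).mpr (V0_of_E0 A h))⟩

/-- the numbers of degree at most `r` -/
lemma closed_deg (r : ℕ) : ∀ x ∈ {x : AlgebraicClosure ℚ | Module.finrank ℚ ℚ⟮x⟯ ≤ r},
    ∀ y ∈ ℚ⟮x⟯, y ∈ {x : AlgebraicClosure ℚ | Module.finrank ℚ ℚ⟮x⟯ ≤ r} := by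
  intro x hx y hy
  haveI := nfa x
  have hle : ℚ⟮y⟯ ≤ ℚ⟮x⟯ := by
    rw [IntermediateField.adjoin_simple_le_iff]
    exact hy
  have h1 : Module.finrank ℚ ℚ⟮y⟯ ≤ Module.finrank ℚ ℚ⟮x⟯ := by
    refine LinearMap.finrank_le_finrank_of_injective
      (f := (IntermediateField.inclusion hle).toLinearMap) ?_
    exact (IntermediateField.inclusion hle).injective
  exact le_trans h1 hx

end Pool.Agent.Q245.Vk
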