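import Pool.Agent.Q245.Vk.Main
import Pool.Agent.TH905.VF.Rel
import Pool.Agent.Helper259.HtExt

set_option autoImplicit false
set_option maxHeartbeats 1000000

namespace Pool.Agent.Q245.Vk

open NumberField Height IsDedekindDomain

section ext

lemma mk_lt_one_iff {K : Type} [Field K] [NumberField K] (v : HeightOneSpectrum (𝓞 K)) (y : K) :
    FinitePlace.mk v y < 1 ↔ v.valuation K y < 1 := by
  rw [FinitePlace.mk_apply, FinitePlace.norm_embedding']
  have h := WithZeroMulInt.toNNReal_strictMono (HeightOneSpectrum.one_lt_absNorm_nnreal v)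
  have h2 := h.lt_iff_lt (a := v.valuation K y) (b := 1)
  rw [map_one] at h2
  rw [← h2]
  exact_mod_cast Iff.rfl

variable {F K : Type} [Field F] [NumberField F] [Field K] [NumberField K] [Algebra F K]

theorem ht_ext (x : F) : logHeight₁ (algebraMap F K x) = Module.finrank F K * logHeight₁ x := by
  have h := Pool.Agent.Helper259.HtExt.logHeight_ext (L := K) ![x, 1]
  have h2 : (fun i => algebraMap F K (![x, 1] i)) = ![algebraMap F K x, 1] := by
    funext i
    fin_cases i <;> simp
  rw [h2] at h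
  rw [logHeight₁_eq_logHeight, h, ← logHeight₁_eq_logHeight]

lemma over_lt (v : HeightOneSpectrum (𝓞 F)) (w : HeightOneSpectrum (𝓞 K))
    [w.asIdeal.LiesOver v.asIdeal] (y : F) :
    FinitePlace.mk w (algebraMap F K y) < 1 ↔ FinitePlace.mk v y < 1 := by
  rw [mk_lt_one_iff, mk_lt_one_iff, ← HeightOneSpectrum.valuation_liesOver K v w]
  have he : v.asIdeal.ramificationIdx' w.asIdeal ≠ 0 :=
    Ideal.IsDedekindDomain.ramificationIdx'_ne_zero_of_liesOver w.asIdeal v.ne_bot
  exact pow_lt_one_iff he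

lemma over_gt (v : HeightOneSpectrum (𝓞 F)) (w : HeightOneSpectrum (𝓞 K))
    [w.asIdeal.LiesOver v.asIdeal] (y : F) :
    1 < FinitePlace.mk w (algebraMap F K y) ↔ 1 < FinitePlace.mk v y := by
  by_cases hy : y = 0
  · subst hy
    rw [map_zero, map_zero, map_zero]
  have hy' : algebraMap F K y ≠ 0 := (map_ne_zero _).mpr hy
  have h := over_lt v w y⁻¹
  have h1 : 0 < FinitePlace.mk v y := FinitePlace.pos_iff.mpr hy
  have h2 : 0 < FinitePlace.mk w (algebraMap F K y) := FinitePlace.pos_iff.mpr hy'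
  rw [map_inv₀, map_inv₀, map_inv₀, inv_lt_one₀ h1, inv_lt_one₀ h2] at h
  exact h

lemma over_one (v : HeightOneSpectrum (𝓞 F)) (w : HeightOneSpectrum (𝓞 K))
    [w.asIdeal.LiesOver v.asIdeal] (y : F) :
    FinitePlace.mk w (algebraMap F K y) = 1 ↔ FinitePlace.mk v y = 1 := by
  have h1 := over_lt v w y
  have h2 := over_gt v w y
  constructor
  · intro h
    rw [h] at h1 h2
    simp only [lt_irrefl, false_iff, not_lt] at h1 h2
    exact le_antisymm h2 h1
  · intro h
    rw [h] at h1 h2
    simp only [lt_irrefl, iff_false, not_lt] at h1 h2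
    exact le_antisymm h2 h1

/-- counting functions and discriminants in an extension -/
theorem rel (S : Set (FinitePlace F)) (hS : S.Finite) (T : Set (FinitePlace K)) (hT : T.Finite)
    (hST : ∀ (v : HeightOneSpectrum (𝓞 F)) (w : HeightOneSpectrum (𝓞 K)),
      w.asIdeal.LiesOver v.asIdeal → FinitePlace.mk v ∈ S → FinitePlace.mk w ∈ T) :
    (Module.finrank F K : ℝ) * (Real.log |(discr F : ℝ)| + ∑ᶠ v ∈ S, lN v)
      ≤ Real.log |(discr K : ℝ)| + ∑ᶠ w ∈ T, lN w := by
  classical
  obtain ⟨W, hW1, hW2⟩ := Pool.Agent.TH905.VF.rel (k := F) (L := K)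
    (hS.toFinset.image FinitePlace.maximalIdeal)
  have h1 : ∑ v ∈ hS.toFinset.image FinitePlace.maximalIdeal,
      Real.log (Ideal.absNorm v.asIdeal) = ∑ᶠ v ∈ S, lN v := by
    rw [finsum_mem_eq_finite_toFinset_sum _ hS, Finset.sum_image]
    · rfl
    · intro a _ b _ hab
      exact FinitePlace.maximalIdeal_injective hab
  have h2 : ∑ w ∈ W, Real.log (Ideal.absNorm w.asIdeal) ≤ ∑ᶠ w ∈ T, lN w := by
    have h3 : ∑ w ∈ W, Real.log (Ideal.absNorm w.asIdeal)
        = ∑ u ∈ W.image FinitePlace.mk, lN u := by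
      rw [Finset.sum_image]
      · refine Finset.sum_congr rfl fun w _ => ?_
        unfold lN
        rw [FinitePlace.maximalIdeal_mk]
      · intro a _ b _ hab
        exact FinitePlace.mk_eq_iff.mp hab
    rw [h3, finsum_mem_eq_finite_toFinset_sum _ hT]
    refine Finset.sum_le_sum_of_subset_of_nonneg ?_ fun v _ _ => lN_nonneg v
    intro u hu
    rw [Finset.mem_image] at hu
    obtain ⟨w, hw, rfl⟩ := hu
    obtain ⟨v, hv, hwv⟩ := hW1 w hw
    rw [Finset.mem_image] at hv
    obtain ⟨s, hs, rfl⟩ := hv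
    rw [Set.Finite.mem_toFinset] at hs ⊢
    refine hST _ w hwv ?_
    rw [FinitePlace.mk_maximalIdeal]
    exact hs
  rw [h1] at hW2
  exact hW2.trans (by linarith)

end ext

end Pool.Agent.Q245.Vk
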