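import Pool.Agent.Q245.Vk.Step

set_option autoImplicit false
set_option maxHeartbeats 1000000

namespace Pool.Agent.Q245.Vk

open NumberField Height

/-- the conclusion of a step -/
def Concl (δ : ℤ) (Q : ℕ) : Prop := ∃ C1 : ℝ, 0 ≤ C1 ∧
  ∀ (K : Type) [Field K] [NumberField K] (z : K), z ≠ 0 → z ≠ 1 → z ≠ -1 →
    logHeight₁ z ≤ C1 * Module.finrank ℚ K ∨
    ∃ t : K, t ^ 2 - δ ≠ 0 ∧
      (2 * Q + 4) * logHeight₁ z ≤ logHeight₁ t + C1 * Module.finrank ℚ K ∧
      ∑ᶠ v ∈ Sm δ t, lN v ≤ ∑ᶠ v ∈ S0 z, lN v + (2 * Q + 3) * logHeight₁ z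
        + C1 * Module.finrank ℚ K

lemma nat_cast_ne {K : Type} [Field K] [NumberField K] {n : ℕ} (h : n ≠ 0) : (n : K) ≠ 0 := by
  exact_mod_cast h

lemma B_ne {K : Type} [Field K] [NumberField K] {z : K} (h1 : z ≠ 1) (h2 : z ≠ -1) :
    (1 : K) - z ^ 2 ≠ 0 := by
  have : (1 : K) - z ^ 2 = (1 - z) * (z + 1) := by ring
  rw [this]
  exact mul_ne_zero (sub_ne_zero.mpr h1.symm) fun h => h2 (eq_neg_of_add_eq_zero_left h)

lemma fin_B {K : Type} [Field K] [NumberField K] (v : FinitePlace K) (z : K) :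
    v (1 - z ^ 2) ≤ (max (v z) 1) ^ 2 := by
  have hM : 1 ≤ max (v z) 1 := le_max_right _ _
  apply fin_sub
  · rw [map_one]
    exact one_le_pow₀ hM
  · rw [map_pow]
    exact pow_le_pow_left₀ (fin_nonneg v z) (le_max_left _ _) 2

lemma fin_B_big {K : Type} [Field K] [NumberField K] (v : FinitePlace K) (z : K) (h : 1 < v z) :
    v (1 - z ^ 2) = v z ^ 2 := by
  rw [fin_sub_eq v 1 (z ^ 2), map_pow]
  rw [map_one, map_pow]
  exact one_lt_pow₀ h two_ne_zero

lemma fin_B_small {K : Type} [Field K] [NumberField K] (v : FinitePlace K) (z : K) (h : v z < 1) :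
    v (1 - z ^ 2) = 1 := by
  have e : (1 : K) - z ^ 2 = -(z ^ 2 - 1) := by ring
  rw [e, fin_neg, fin_sub_eq v (z ^ 2) 1, map_one]
  rw [map_one, map_pow]
  exact pow_lt_one₀ (fin_nonneg v z) h two_ne_zero

lemma inf_B {K : Type} [Field K] [NumberField K] (w : InfinitePlace K) (z : K) :
    w (1 - z ^ 2) ≤ 2 * (max (w z) 1) ^ 2 := by
  have hM : 1 ≤ max (w z) 1 := le_max_right _ _
  refine (inf_sub w 1 (z ^ 2)).trans ?_
  rw [map_one, map_pow]
  have h1 : w z ^ 2 ≤ (max (w z) 1) ^ 2 :=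
    pow_le_pow_left₀ (inf_nonneg w z) (le_max_left _ _) 2
  have h2 : 1 ≤ (max (w z) 1) ^ 2 := one_le_pow₀ hM
  linarith

lemma inf_B_big {K : Type} [Field K] [NumberField K] (w : InfinitePlace K) (z : K) (h : 2 < w z) :
    w z ^ 2 / 2 ≤ w (1 - z ^ 2) := by
  have h1 : w (z ^ 2) ≤ w 1 + w (1 - z ^ 2) := by
    have e : z ^ 2 = 1 - (1 - z ^ 2) := by ring
    calc w (z ^ 2) = w (1 - (1 - z ^ 2)) := by rw [← e]
      _ ≤ _ := inf_sub w _ _
  rw [map_one, map_pow] at h1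
  nlinarith

lemma inf_B_small {K : Type} [Field K] [NumberField K] (w : InfinitePlace K) (z : K)
    (h : w z ≤ 1 / 2) : 1 / 2 ≤ w (1 - z ^ 2) := by
  have h1 : w (1 : K) ≤ w (1 - z ^ 2) + w (z ^ 2) := by
    have e : (1 : K) = (1 - z ^ 2) + z ^ 2 := by ring
    calc w (1 : K) = w ((1 - z ^ 2) + z ^ 2) := by rw [← e]
      _ ≤ _ := inf_add w _ _
  rw [map_one, map_pow] at h1
  have h2 : 0 ≤ w z := inf_nonneg w z
  nlinarith

lemma concl_pos (δ : ℤ) (hδ : δ ≠ 0) (Q a : ℕ) (hQ : a * 2 = Q + 1) (μ : ℤ)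
    (hμ : μ ^ 2 = δ * (Q + 2)) : Concl δ Q := by
  have hμ0 : μ ≠ 0 := by
    rintro rfl
    have : δ * ((Q : ℤ) + 2) ≠ 0 := mul_ne_zero hδ (by positivity)
    exact this (by simpa using hμ.symm)
  have hμn : μ.natAbs ≠ 0 := Int.natAbs_ne_zero.mpr hμ0
  obtain ⟨C1, hC1, H⟩ := combine δ hδ Q (Q + 1) (μ.natAbs * (Q + 2) ^ a * (Q + 1) ^ a)
    (μ.natAbs * (Q + 2) * (Q + 1)) (by omega) (by positivity) (by positivity)
    (2 * (Q + 2)) (2 ^ (Q + 2)) (by positivity) (by positivity)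
  refine ⟨C1, hC1, ?_⟩
  intro K _ _ z hz0 hz1 hzm
  have hμK : (μ : K) ≠ 0 := by exact_mod_cast hμ0
  have hc : ((Q + 1 : ℕ) : K) + 1 ≠ 0 := by
    have := nat_cast_ne (K := K) (n := Q + 2) (by omega)
    push_cast at this ⊢
    rwa [show (Q : K) + 1 + 1 = Q + 2 by ring]
  have hP : ((Q + 1 : ℕ) : K) ≠ 0 := nat_cast_ne (by omega)
  have hB := B_ne hz1 hzm
  have ecast : ((Q + 1 : ℕ) : K) + 1 = ((Q + 2 : ℕ) : K) := by push_cast; ring
  refine H K z (μ * (((Q + 1 : ℕ) : K) + 1) ^ a * (z * (1 - z ^ 2) ^ a)) (((Q + 1 : ℕ) : K) ^ a)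
    ((Q + 1 : ℕ) : K) ((((Q + 1 : ℕ) : K) + 1) * (1 - z ^ 2)) hz0 hz1 hzm
    (mul_ne_zero (mul_ne_zero hμK (pow_ne_zero _ hc)) (mul_ne_zero hz0 (pow_ne_zero _ hB)))
    (pow_ne_zero _ hP) ?_ ?_ ?_ ?_ ?_ ?_
  · apply id_pos a Q hQ _ z _ _ _ (by push_cast; ring) _ rfl
    have : ((μ ^ 2 : ℤ) : K) = ((δ * (Q + 2) : ℤ) : K) := by rw [hμ]
    push_cast at this ⊢
    rw [this]; ring
  · intro v
    have hM : 1 ≤ max (v z) 1 := le_max_right _ _
    have h1 : 1 ≤ (max (v z) 1) ^ 2 := one_le_pow₀ hM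
    refine ⟨(nat_le v _).trans h1, ?_⟩
    rw [map_mul, ecast]
    calc v ((Q + 2 : ℕ) : K) * v (1 - z ^ 2) ≤ 1 * (max (v z) 1) ^ 2 :=
          mul_le_mul (nat_le v _) (fin_B v z) (fin_nonneg v _) zero_le_one
      _ = _ := one_mul _
  · intro w
    have hM : 1 ≤ max (w z) 1 := le_max_right _ _
    have h1 : 1 ≤ (max (w z) 1) ^ 2 := one_le_pow₀ hM
    have h2 := inf_B w z
    constructor
    · rw [inf_nat]; push_cast
      have : (0 : ℝ) ≤ Q := by positivity
      nlinarith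
    · rw [map_mul, ecast, inf_nat]; push_cast
      have : (0 : ℝ) ≤ (Q : ℝ) + 2 := by positivity
      calc ((Q : ℝ) + 2) * w (1 - z ^ 2) ≤ (Q + 2) * (2 * (max (w z) 1) ^ 2) :=
            mul_le_mul_of_nonneg_left h2 this
        _ = _ := by ring
  · intro v
    have e1 : v ((μ.natAbs * (Q + 2) ^ a * (Q + 1) ^ a : ℕ) : K)
        = v (μ : K) * v ((Q + 2 : ℕ) : K) ^ a * v ((Q + 1 : ℕ) : K) ^ a := by
      push_cast [map_mul, map_pow]
      rw [← v_natAbs v μ]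
    have k1 : v (μ : K) ≤ 1 := int_le v μ
    have k2 : v ((Q + 2 : ℕ) : K) ≤ 1 := nat_le v _
    have k3 : v ((Q + 1 : ℕ) : K) ≤ 1 := nat_le v _
    have n1 : 0 ≤ v (μ : K) := fin_nonneg v _
    have n2 : 0 ≤ v ((Q + 2 : ℕ) : K) := fin_nonneg v _
    have n3 : 0 ≤ v ((Q + 1 : ℕ) : K) := fin_nonneg v _
    have k2a : v ((Q + 2 : ℕ) : K) ^ a ≤ 1 := pow_le_one₀ n2 k2
    have k3a : v ((Q + 1 : ℕ) : K) ^ a ≤ 1 := pow_le_one₀ n3 k3
    rw [e1]
    rcases le_or_gt (v z) 1 with hz | hz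
    · refine le_max_of_le_right ?_
      rw [max_eq_right hz, one_pow, mul_one, map_pow]
      calc v (μ : K) * v ((Q + 2 : ℕ) : K) ^ a * v ((Q + 1 : ℕ) : K) ^ a
          ≤ 1 * v ((Q + 1 : ℕ) : K) ^ a := by
            apply mul_le_mul_of_nonneg_right _ (by positivity)
            exact mul_le_one₀ k1 (by positivity) k2a
        _ = _ := one_mul _
    · refine le_max_of_le_left ?_
      rw [max_eq_left hz.le, map_mul, map_mul, map_mul, map_pow, map_pow, fin_B_big v z hz, ecast,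
        ← pow_mul]
      have e2 : v z * v z ^ (2 * a) = v z ^ (Q + 2) := by
        rw [← pow_succ']; congr 1; omega
      rw [e2]
      have n4 : 0 ≤ v z ^ (Q + 2) := by positivity
      calc v (μ : K) * v ((Q + 2 : ℕ) : K) ^ a * v ((Q + 1 : ℕ) : K) ^ a * v z ^ (Q + 2)
          ≤ v (μ : K) * v ((Q + 2 : ℕ) : K) ^ a * 1 * v z ^ (Q + 2) := by gcongr
        _ = _ := by ring
  · intro w
    have hM : 1 ≤ max (w z) 1 := le_max_right _ _
    rcases le_or_gt (w z) 2 with hz | hz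
    · have h1 : max (w z) 1 ≤ 2 := max_le hz one_le_two
      have h2 : (1 : ℝ) ≤ w (((Q + 1 : ℕ) : K) ^ a) := by
        rw [map_pow, inf_nat]
        apply one_le_pow₀
        push_cast
        have : (0 : ℝ) ≤ Q := by positivity
        linarith
      calc (max (w z) 1) ^ (Q + 2) ≤ 2 ^ (Q + 2) := pow_le_pow_left₀ (by linarith) h1 _
        _ = 2 ^ (Q + 2) * 1 := (mul_one _).symm
        _ ≤ _ := mul_le_mul_of_nonneg_left (le_max_of_le_right h2) (by positivity)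
    · have h1 : max (w z) 1 = w z := max_eq_left (by linarith)
      have h3 := inf_B_big w z hz
      have hz0 : 0 < w z := by linarith
      have h4 : (w z ^ 2 / 2) ^ a ≤ w (1 - z ^ 2) ^ a := pow_le_pow_left₀ (by positivity) h3 _
      have h5 : (1 : ℝ) ≤ w (μ : K) := by
        rw [inf_int]; exact_mod_cast Int.one_le_abs hμ0
      have h6 : (1 : ℝ) ≤ w ((Q + 2 : ℕ) : K) ^ a := by
        rw [inf_nat]
        apply one_le_pow₀
        push_cast
        have : (0 : ℝ) ≤ Q := by positivity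
        linarith
      have h7 : w z * (w z ^ 2 / 2) ^ a
          ≤ w (μ * (((Q + 1 : ℕ) : K) + 1) ^ a * (z * (1 - z ^ 2) ^ a)) := by
        rw [map_mul, map_mul, map_mul, map_pow, map_pow, ecast]
        have h8 : w z * (w z ^ 2 / 2) ^ a ≤ w z * w (1 - z ^ 2) ^ a :=
          mul_le_mul_of_nonneg_left h4 hz0.le
        have h9 : (1 : ℝ) ≤ w (μ : K) * w ((Q + 2 : ℕ) : K) ^ a := one_le_mul_of_one_le_of_one_le h5 h6
        refine h8.trans (le_mul_of_one_le_left ?_ h9)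
        exact mul_nonneg hz0.le (pow_nonneg (inf_nonneg w _) _)
      have h10 : w z ^ (Q + 2) = 2 ^ a * (w z * (w z ^ 2 / 2) ^ a) := by
        rw [div_pow, ← pow_mul]
        have e2 : w z ^ (Q + 2) = w z * w z ^ (2 * a) := by
          rw [← pow_succ']; congr 1; omega
        rw [e2]
        field_simp
      rw [h1, h10]
      calc 2 ^ a * (w z * (w z ^ 2 / 2) ^ a)
          ≤ 2 ^ (Q + 2) * (w z * (w z ^ 2 / 2) ^ a) := by
            apply mul_le_mul_of_nonneg_right _ (by positivity)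
            exact pow_le_pow_right₀ one_le_two (by omega)
        _ ≤ _ := mul_le_mul_of_nonneg_left (le_max_of_le_left h7) (by positivity)
  · intro v hvz hvz1 hvz2 hvc
    push_cast [map_mul] at hvc
    have k1 : v (μ : K) ≤ 1 := int_le v μ
    have k2 : v ((Q : K) + 2) ≤ 1 := by have := nat_le v (Q + 2); push_cast at this; exact this
    have k3 : v ((Q : K) + 1) ≤ 1 := by have := nat_le v (Q + 1); push_cast at this; exact this
    rw [v_natAbs] at hvc
    obtain ⟨f1, f2⟩ := eq_one_of_mul (mul_nonneg (fin_nonneg v _) (fin_nonneg v _))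
      (mul_le_one₀ k1 (fin_nonneg v _) k2) (fin_nonneg v _) k3 hvc
    obtain ⟨f3, f4⟩ := eq_one_of_mul (fin_nonneg v _) k1 (fin_nonneg v _) k2 f1
    have hvB : v (1 - z ^ 2) = 1 := by
      have : (1 : K) - z ^ 2 = (1 - z) * (z + 1) := by ring
      rw [this, map_mul, hvz1, hvz2, one_mul]
    constructor
    · rw [map_mul, map_mul, map_mul, map_pow, map_pow, ecast, hvB, hvz, f3]
      push_cast
      rw [f4]; simp
    · rw [map_pow]; push_cast
      rw [f2, one_pow]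

lemma concl_neg (δ : ℤ) (hδ : δ ≠ 0) (Q a : ℕ) (hQ : a * 2 = Q + 2) (μ : ℤ)
    (hμ : μ ^ 2 = -δ * (Q + 1)) : Concl δ Q := by
  have hμ0 : μ ≠ 0 := by
    rintro rfl
    have : -δ * ((Q : ℤ) + 1) ≠ 0 := mul_ne_zero (neg_ne_zero.mpr hδ) (by positivity)
    exact this (by simpa using hμ.symm)
  have hμn : μ.natAbs ≠ 0 := Int.natAbs_ne_zero.mpr hμ0
  obtain ⟨C1, hC1, H⟩ := combine δ hδ Q 1 (μ.natAbs * (Q + 2) ^ a * (Q + 1) ^ a)
    (μ.natAbs * (Q + 2) * (Q + 1)) (by omega) (by positivity) (by positivity)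
    (2 * (Q + 2)) (2 ^ (Q + 3)) (by positivity) (by positivity)
  refine ⟨C1, hC1, ?_⟩
  intro K _ _ z hz0 hz1 hzm
  have hμK : (μ : K) ≠ 0 := by exact_mod_cast hμ0
  have hc : ((Q + 1 : ℕ) : K) + 1 ≠ 0 := by
    have := nat_cast_ne (K := K) (n := Q + 2) (by omega)
    push_cast at this ⊢
    rwa [show (Q : K) + 1 + 1 = Q + 2 by ring]
  have hP : ((Q + 1 : ℕ) : K) ≠ 0 := nat_cast_ne (by omega)
  have hB := B_ne hz1 hzm
  have ecast : ((Q + 1 : ℕ) : K) + 1 = ((Q + 2 : ℕ) : K) := by push_cast; ring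
  refine H K z (μ * (((Q + 1 : ℕ) : K) + 1) ^ a * z) (((Q + 1 : ℕ) : K) ^ a * (1 - z ^ 2) ^ a)
    (((Q + 1 : ℕ) : K) * (1 - z ^ 2)) (((Q + 1 : ℕ) : K) + 1) hz0 hz1 hzm
    (mul_ne_zero (mul_ne_zero hμK (pow_ne_zero _ hc)) hz0)
    (mul_ne_zero (pow_ne_zero _ hP) (pow_ne_zero _ hB)) ?_ ?_ ?_ ?_ ?_ ?_
  · rw [Nat.cast_one, one_mul]
    apply id_neg a Q hQ _ z _ _ _ (by push_cast; ring) _ rfl
    have : ((μ ^ 2 : ℤ) : K) = ((-δ * (Q + 1) : ℤ) : K) := by rw [hμ]
    push_cast at this ⊢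
    exact this
  · intro v
    have hM : 1 ≤ max (v z) 1 := le_max_right _ _
    have h1 : 1 ≤ (max (v z) 1) ^ 2 := one_le_pow₀ hM
    constructor
    · rw [map_mul]
      calc v ((Q + 1 : ℕ) : K) * v (1 - z ^ 2) ≤ 1 * (max (v z) 1) ^ 2 :=
            mul_le_mul (nat_le v _) (fin_B v z) (fin_nonneg v _) zero_le_one
        _ = _ := one_mul _
    · rw [ecast]; exact (nat_le v _).trans h1
  · intro w
    have hM : 1 ≤ max (w z) 1 := le_max_right _ _
    have h1 : 1 ≤ (max (w z) 1) ^ 2 := one_le_pow₀ hM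
    have h2 := inf_B w z
    have hQ0 : (0 : ℝ) ≤ Q := by positivity
    constructor
    · rw [map_mul, inf_nat]; push_cast
      have h3 : ((Q : ℝ) + 1) * w (1 - z ^ 2) ≤ (Q + 1) * (2 * (max (w z) 1) ^ 2) :=
        mul_le_mul_of_nonneg_left h2 (by positivity)
      nlinarith
    · rw [ecast, inf_nat]; push_cast
      nlinarith
  · intro v
    have e1 : v ((μ.natAbs * (Q + 2) ^ a * (Q + 1) ^ a : ℕ) : K)
        = v (μ : K) * v ((Q + 2 : ℕ) : K) ^ a * v ((Q + 1 : ℕ) : K) ^ a := by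
      push_cast [map_mul, map_pow]
      rw [← v_natAbs v μ]
    have k1 : v (μ : K) ≤ 1 := int_le v μ
    have k2 : v ((Q + 2 : ℕ) : K) ≤ 1 := nat_le v _
    have k3 : v ((Q + 1 : ℕ) : K) ≤ 1 := nat_le v _
    have n1 : 0 ≤ v (μ : K) := fin_nonneg v _
    have n2 : 0 ≤ v ((Q + 2 : ℕ) : K) := fin_nonneg v _
    have n3 : 0 ≤ v ((Q + 1 : ℕ) : K) := fin_nonneg v _
    have k2a : v ((Q + 2 : ℕ) : K) ^ a ≤ 1 := pow_le_one₀ n2 k2
    have k3a : v ((Q + 1 : ℕ) : K) ^ a ≤ 1 := pow_le_one₀ n3 k3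
    rw [e1]
    rcases lt_trichotomy (v z) 1 with hz | hz | hz
    · refine le_max_of_le_right ?_
      rw [max_eq_right hz.le, one_pow, mul_one, map_mul, map_pow, map_pow, fin_B_small v z hz,
        one_pow, mul_one]
      calc v (μ : K) * v ((Q + 2 : ℕ) : K) ^ a * v ((Q + 1 : ℕ) : K) ^ a
          ≤ 1 * v ((Q + 1 : ℕ) : K) ^ a := by
            apply mul_le_mul_of_nonneg_right _ (by positivity)
            exact mul_le_one₀ k1 (by positivity) k2a
        _ = _ := one_mul _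
    · refine le_max_of_le_left ?_
      rw [hz, max_self, one_pow, mul_one, map_mul, map_mul, map_pow, ecast, hz, mul_one]
      calc v (μ : K) * v ((Q + 2 : ℕ) : K) ^ a * v ((Q + 1 : ℕ) : K) ^ a
          ≤ v (μ : K) * v ((Q + 2 : ℕ) : K) ^ a * 1 := by gcongr
        _ = _ := mul_one _
    · refine le_max_of_le_right ?_
      rw [max_eq_left hz.le, map_mul, map_pow, map_pow, fin_B_big v z hz, ← pow_mul]
      have e2 : v z ^ (2 * a) = v z ^ (Q + 2) := by congr 1; omega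
      rw [e2]
      have n4 : 0 ≤ v z ^ (Q + 2) := by positivity
      calc v (μ : K) * v ((Q + 2 : ℕ) : K) ^ a * v ((Q + 1 : ℕ) : K) ^ a * v z ^ (Q + 2)
          ≤ 1 * v ((Q + 1 : ℕ) : K) ^ a * v z ^ (Q + 2) := by
            apply mul_le_mul_of_nonneg_right _ n4
            apply mul_le_mul_of_nonneg_right _ (by positivity)
            exact mul_le_one₀ k1 (by positivity) k2a
        _ = _ := by ring
  · intro w
    have hM : 1 ≤ max (w z) 1 := le_max_right _ _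
    have hQ0 : (0 : ℝ) ≤ Q := by positivity
    have h6 : (1 : ℝ) ≤ w (((Q + 1 : ℕ) : K)) ^ a := by
      rw [inf_nat]
      apply one_le_pow₀
      push_cast
      linarith
    have h6' : (1 : ℝ) ≤ w ((Q + 2 : ℕ) : K) ^ a := by
      rw [inf_nat]
      apply one_le_pow₀
      push_cast
      linarith
    have h5 : (1 : ℝ) ≤ w (μ : K) := by
      rw [inf_int]; exact_mod_cast Int.one_le_abs hμ0
    rcases le_or_gt (w z) 2 with hz | hz
    · rcases le_or_gt (w z) (1 / 2) with hz2 | hz2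
      · have h1 : max (w z) 1 = 1 := max_eq_right (by linarith)
        have h3 := inf_B_small w z hz2
        have h4 : (1 / 2 : ℝ) ^ a ≤ w (1 - z ^ 2) ^ a := pow_le_pow_left₀ (by positivity) h3 _
        have h7 : (1 / 2 : ℝ) ^ a ≤ w (((Q + 1 : ℕ) : K) ^ a * (1 - z ^ 2) ^ a) := by
          rw [map_mul, map_pow, map_pow]
          refine h4.trans (le_mul_of_one_le_left (pow_nonneg (inf_nonneg w _) _) h6)
        rw [h1, one_pow]
        calc (1 : ℝ) = 2 ^ a * (1 / 2) ^ a := by rw [← mul_pow]; norm_num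
          _ ≤ 2 ^ (Q + 3) * (1 / 2) ^ a := by
              apply mul_le_mul_of_nonneg_right _ (by positivity)
              exact pow_le_pow_right₀ one_le_two (by omega)
          _ ≤ _ := mul_le_mul_of_nonneg_left (le_max_of_le_right h7) (by positivity)
      · have h1 : max (w z) 1 ≤ 2 := max_le hz one_le_two
        have h7 : (1 / 2 : ℝ) ≤ w (μ * (((Q + 1 : ℕ) : K) + 1) ^ a * z) := by
          rw [map_mul, map_mul, map_pow, ecast]
          have h9 : (1 : ℝ) ≤ w (μ : K) * w ((Q + 2 : ℕ) : K) ^ a :=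
            one_le_mul_of_one_le_of_one_le h5 h6'
          refine hz2.le.trans (le_mul_of_one_le_left (inf_nonneg w _) h9)
        calc (max (w z) 1) ^ (Q + 2) ≤ 2 ^ (Q + 2) := pow_le_pow_left₀ (by linarith) h1 _
          _ = 2 ^ (Q + 3) * (1 / 2) := by rw [pow_succ 2 (Q + 2)]; ring
          _ ≤ _ := mul_le_mul_of_nonneg_left (le_max_of_le_left h7) (by positivity)
    · have h1 : max (w z) 1 = w z := max_eq_left (by linarith)
      have h3 := inf_B_big w z hz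
      have hz0 : 0 < w z := by linarith
      have h4 : (w z ^ 2 / 2) ^ a ≤ w (1 - z ^ 2) ^ a := pow_le_pow_left₀ (by positivity) h3 _
      have h7 : (w z ^ 2 / 2) ^ a ≤ w (((Q + 1 : ℕ) : K) ^ a * (1 - z ^ 2) ^ a) := by
        rw [map_mul, map_pow, map_pow]
        refine h4.trans (le_mul_of_one_le_left (pow_nonneg (inf_nonneg w _) _) h6)
      have h10 : w z ^ (Q + 2) = 2 ^ a * (w z ^ 2 / 2) ^ a := by
        rw [div_pow, ← pow_mul]
        have e2 : w z ^ (Q + 2) = w z ^ (2 * a) := by congr 1; omega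
        rw [e2]
        field_simp
      rw [h1, h10]
      calc 2 ^ a * (w z ^ 2 / 2) ^ a ≤ 2 ^ (Q + 3) * (w z ^ 2 / 2) ^ a := by
            apply mul_le_mul_of_nonneg_right _ (by positivity)
            exact pow_le_pow_right₀ one_le_two (by omega)
        _ ≤ _ := mul_le_mul_of_nonneg_left (le_max_of_le_right h7) (by positivity)
  · intro v hvz hvz1 hvz2 hvc
    push_cast [map_mul] at hvc
    have k1 : v (μ : K) ≤ 1 := int_le v μ
    have k2 : v ((Q : K) + 2) ≤ 1 := by have := nat_le v (Q + 2); push_cast at this; exact this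
    have k3 : v ((Q : K) + 1) ≤ 1 := by have := nat_le v (Q + 1); push_cast at this; exact this
    rw [v_natAbs] at hvc
    obtain ⟨f1, f2⟩ := eq_one_of_mul (mul_nonneg (fin_nonneg v _) (fin_nonneg v _))
      (mul_le_one₀ k1 (fin_nonneg v _) k2) (fin_nonneg v _) k3 hvc
    obtain ⟨f3, f4⟩ := eq_one_of_mul (fin_nonneg v _) k1 (fin_nonneg v _) k2 f1
    have hvB : v (1 - z ^ 2) = 1 := by
      have : (1 : K) - z ^ 2 = (1 - z) * (z + 1) := by ring
      rw [this, map_mul, hvz1, hvz2, one_mul]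
    constructor
    · rw [map_mul, map_mul, map_pow, ecast, hvz, f3]
      push_cast
      rw [f4]; simp
    · rw [map_mul, map_pow, map_pow, hvB]; push_cast
      rw [f2]; simp

/-- the step exists for `δ = 4^j m`, `m` odd -/
lemma exists_concl (δ : ℤ) (j : ℕ) (m : ℤ) (hm : Odd m) (hδ : δ = 4 ^ j * m) :
    ∃ Q : ℕ, Concl δ Q := by
  have hm0 : m ≠ 0 := by
    rintro rfl
    simp at hm
  have hδ0 : δ ≠ 0 := by
    rw [hδ]; positivity
  obtain ⟨q, hq⟩ := hm
  rcases lt_trichotomy m 0 with hneg | h0 | hpos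
  · -- `9 |m| = 2 l + 1`, `Q = 2 l`, `a = l + 1`
    obtain ⟨l, hl⟩ : ∃ l : ℕ, (2 * (l : ℤ) + 1) = 9 * (-m) := by
      refine ⟨(-9 * q - 5).toNat, ?_⟩
      rw [Int.toNat_of_nonneg (by omega)]
      omega
    refine ⟨2 * l, concl_neg δ hδ0 (2 * l) (l + 1) (by omega) (2 ^ j * 3 * m) ?_⟩
    push_cast
    rw [hl, hδ]
    have : (4 : ℤ) ^ j = 2 ^ j * 2 ^ j := by rw [← mul_pow]; norm_num
    rw [this]; ring
  · exact absurd h0 hm0
  · obtain ⟨l, hl⟩ : ∃ l : ℕ, (2 * (l : ℤ) + 3) = 9 * m := by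
      refine ⟨(9 * q + 3).toNat, ?_⟩
      rw [Int.toNat_of_nonneg (by omega)]
      omega
    refine ⟨2 * l + 1, concl_pos δ hδ0 (2 * l + 1) (l + 1) (by omega) (2 ^ j * 3 * m) ?_⟩
    push_cast
    have e : (2 * (l : ℤ) + 1 + 2) = 9 * m := by linarith
    rw [e, hδ]
    have : (4 : ℤ) ^ j = 2 ^ j * 2 ^ j := by rw [← mul_pow]; norm_num
    rw [this]; ring

end Pool.Agent.Q245.Vk
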