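import Pool.Agent.Q245.Vk.Basic

set_option autoImplicit false
set_option maxHeartbeats 1000000

namespace Pool.Agent.Q245.Vk

open NumberField Height

section ring

variable {R : Type} [CommRing R]

/-- the cofactor of `(u - v)²` in `u^(m+2) - (m+2) u v^(m+1) + (m+1) v^(m+2)` -/
def SS (u v : R) : ℕ → R
  | 0 => 1
  | (m + 1) => u * SS u v m + (m + 2) * v ^ (m + 1)

lemma SS_id (u v : R) (m : ℕ) :
    (u - v) ^ 2 * SS u v m = u ^ (m + 2) - (m + 2) * u * v ^ (m + 1) + (m + 1) * v ^ (m + 2) := by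
  induction m with
  | zero => simp [SS]; ring
  | succ m ih =>
    rw [SS]
    have : (u - v) ^ 2 * (u * SS u v m + (m + 2) * v ^ (m + 1))
        = u * ((u - v) ^ 2 * SS u v m) + (u - v) ^ 2 * ((m + 2) * v ^ (m + 1)) := by ring
    rw [this, ih]
    push_cast
    ring

lemma id_pos (a Q : ℕ) (hQ : a * 2 = Q + 1) (P z B δ μ : R) (hP : P = Q + 1)
    (hμ : μ ^ 2 = δ * (P + 1)) (hB : B = 1 - z ^ 2) :
    P * ((μ * (P + 1) ^ a * (z * B ^ a)) ^ 2 - δ * (P ^ a) ^ 2)
      = -δ * ((P - (P + 1) * B) ^ 2 * SS P ((P + 1) * B) Q) := by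
  rw [SS_id]
  have hc1 : ((Q : R) + 2) = P + 1 := by rw [hP]; ring
  rw [hc1, ← hP]
  generalize hc : P + 1 = c
  rw [hc] at hμ
  have e1 : (μ * c ^ a * (z * B ^ a)) ^ 2 = μ ^ 2 * c ^ (Q + 1) * (z ^ 2 * B ^ (Q + 1)) := by
    rw [mul_pow, mul_pow, mul_pow, ← pow_mul, ← pow_mul, hQ]
  have e2 : (P ^ a) ^ 2 = P ^ (Q + 1) := by
    rw [← pow_mul, hQ]
  rw [e1, e2]
  linear_combination (P * c ^ (Q + 1) * B ^ (Q + 1) * z ^ 2) * hμ
    + (P * c ^ (Q + 2) * δ * B ^ (Q + 1)) * hB

lemma id_neg (a Q : ℕ) (hQ : a * 2 = Q + 2) (P z B δ μ : R) (hP : P = Q + 1)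
    (hμ : μ ^ 2 = -δ * P) (hB : B = 1 - z ^ 2) :
    ((μ * (P + 1) ^ a * z) ^ 2 - δ * (P ^ a * B ^ a) ^ 2)
      = -δ * ((P * B - (P + 1)) ^ 2 * SS (P * B) (P + 1) Q) := by
  rw [SS_id]
  have hc1 : ((Q : R) + 2) = P + 1 := by rw [hP]; ring
  rw [hc1, ← hP]
  generalize hc : P + 1 = c
  have e1 : (μ * c ^ a * z) ^ 2 = μ ^ 2 * c ^ (Q + 2) * z ^ 2 := by
    rw [mul_pow, mul_pow, ← pow_mul, hQ]
  have e2 : (P ^ a * B ^ a) ^ 2 = P ^ (Q + 2) * B ^ (Q + 2) := by
    rw [mul_pow, ← pow_mul, ← pow_mul, hQ]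
  rw [e1, e2]
  linear_combination (c ^ (Q + 2) * z ^ 2) * hμ
    - (P * c ^ (Q + 2) * δ) * hB

end ring

/-- the constant in the bound for `SS` -/
def Kc : ℕ → ℕ
  | 0 => 1
  | (m + 1) => Kc m + (m + 2)

lemma Kc_pos (m : ℕ) : 0 < Kc m := by
  induction m with
  | zero => simp [Kc]
  | succ m ih => rw [Kc]; omega

variable {K : Type} [Field K] [NumberField K]

lemma fin_add (v : FinitePlace K) (y z : K) {m : ℝ} (hy : v y ≤ m) (hz : v z ≤ m) :
    v (y + z) ≤ m := (FinitePlace.add_le v y z).trans (max_le hy hz)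

lemma fin_neg (v : FinitePlace K) (y : K) : v (-y) = v y := v.1.map_neg y

lemma inf_neg (w : InfinitePlace K) (y : K) : w (-y) = w y := w.1.map_neg y

lemma fin_sub (v : FinitePlace K) (y z : K) {m : ℝ} (hy : v y ≤ m) (hz : v z ≤ m) :
    v (y - z) ≤ m := by
  rw [sub_eq_add_neg]
  exact fin_add v y (-z) hy (by rw [fin_neg]; exact hz)

lemma fin_nonneg (v : FinitePlace K) (y : K) : 0 ≤ v y := v.1.nonneg y

lemma inf_nonneg (w : InfinitePlace K) (y : K) : 0 ≤ w y := w.1.nonneg y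

lemma inf_add (w : InfinitePlace K) (y z : K) : w (y + z) ≤ w y + w z := w.1.add_le y z

lemma inf_sub (w : InfinitePlace K) (y z : K) : w (y - z) ≤ w y + w z := by
  rw [sub_eq_add_neg]
  exact (inf_add w _ _).trans (by rw [inf_neg])

/-- a strictly dominant term -/
lemma fin_sub_eq (v : FinitePlace K) (y z : K) (h : v y < v z) : v (y - z) = v z := by
  apply le_antisymm
  · exact fin_sub v y z h.le le_rfl
  · by_contra hcon
    push Not at hcon
    have h1 : v z ≤ max (v y) (v (y - z)) := by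
      have e : z = y + -(y - z) := by ring
      calc v z = v (y + -(y - z)) := by rw [← e]
        _ ≤ max (v y) (v (-(y - z))) := FinitePlace.add_le v _ _
        _ = max (v y) (v (y - z)) := by rw [fin_neg]
    rcases le_max_iff.mp h1 with h2 | h2 <;> linarith

lemma fin_SS (v : FinitePlace K) (x y : K) {T : ℝ} (hx : v x ≤ T) (hy : v y ≤ T) (m : ℕ) :
    v (SS x y m) ≤ T ^ m := by
  have hT : 0 ≤ T := (fin_nonneg v x).trans hx
  induction m with
  | zero => simp [SS]
  | succ m ih =>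
    rw [SS]
    apply fin_add
    · rw [map_mul, pow_succ']
      exact mul_le_mul hx ih (fin_nonneg v _) hT
    · rw [map_mul, map_pow]
      have h1 : v ((m : K) + 2) ≤ 1 := by
        have := nat_le v (m + 2)
        push_cast at this
        exact this
      calc v ((m : K) + 2) * v y ^ (m + 1) ≤ 1 * T ^ (m + 1) := by
            apply mul_le_mul h1 (pow_le_pow_left₀ (fin_nonneg v y) hy _) (by
              exact pow_nonneg (fin_nonneg v y) _) zero_le_one
        _ = T ^ (m + 1) := one_mul _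

lemma inf_SS (w : InfinitePlace K) (x y : K) {T : ℝ} (hx : w x ≤ T) (hy : w y ≤ T) (m : ℕ) :
    w (SS x y m) ≤ Kc m * T ^ m := by
  have hT : 0 ≤ T := (inf_nonneg w x).trans hx
  induction m with
  | zero => simp [SS, Kc]
  | succ m ih =>
    rw [SS, Kc]
    refine (inf_add w _ _).trans ?_
    rw [map_mul, map_mul, map_pow]
    have h1 : w ((m : K) + 2) = m + 2 := by
      have := inf_nat w (m + 2)
      push_cast at this
      exact this
    rw [h1]
    have h2 : w x * w (SS x y m) ≤ T * (Kc m * T ^ m) :=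
      mul_le_mul hx ih (inf_nonneg w _) hT
    have h3 : ((m : ℝ) + 2) * w y ^ (m + 1) ≤ (m + 2) * T ^ (m + 1) := by
      apply mul_le_mul_of_nonneg_left _ (by positivity)
      exact pow_le_pow_left₀ (inf_nonneg w y) hy _
    push_cast
    calc w x * w (SS x y m) + ((m : ℝ) + 2) * w y ^ (m + 1)
        ≤ T * (Kc m * T ^ m) + (m + 2) * T ^ (m + 1) := by linarith
      _ = (Kc m + (m + 2)) * T ^ (m + 1) := by ring

/-- the second map: finite places -/
lemma fin_second (v : FinitePlace K) (δ : ℤ) (U V : K) (hU : U ≠ 0) (hV : V ≠ 0) :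
    v ((2 * δ : ℤ) : K) * (max (v U) (v V)) ^ 2
      ≤ max (v (U ^ 2 + δ * V ^ 2)) (v (2 * U * V)) := by
  set N := max (v (U ^ 2 + δ * V ^ 2)) (v (2 * U * V)) with hN
  set A := U ^ 2 + δ * V ^ 2 with hA
  set B := 2 * U * V with hB
  have hvU : 0 < v U := v.1.pos hU
  have hvV : 0 < v V := v.1.pos hV
  have hNA : v A ≤ N := le_max_left _ _
  have hNB : v B ≤ N := le_max_right _ _
  have hN0 : 0 ≤ N := (fin_nonneg v A).trans hNA
  have h2 : v (2 : K) ≤ 1 := by
    have := nat_le v 2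
    simpa using this
  have hδ : v (δ : K) ≤ 1 := int_le v δ
  have h20 : 0 ≤ v (2 : K) := fin_nonneg v _
  have hδ0 : 0 ≤ v (δ : K) := fin_nonneg v _
  have hcast : v ((2 * δ : ℤ) : K) = v (2 : K) * v (δ : K) := by
    push_cast; rw [map_mul]
  rw [hcast]
  rcases max_cases (v U) (v V) with ⟨hm, hle⟩ | ⟨hm, hle⟩
  · rw [hm]
    have e : 2 * U * A - δ * V * B = 2 * U ^ 3 := by rw [hA, hB]; ring
    have h3 : v (2 * U ^ 3) ≤ v U * N := by
      rw [← e]
      apply fin_sub
      · rw [map_mul, map_mul]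
        calc v (2 : K) * v U * v A ≤ 1 * v U * N := by gcongr
          _ = v U * N := by ring
      · rw [map_mul, map_mul]
        calc v (δ : K) * v V * v B ≤ 1 * v U * N := by gcongr
          _ = v U * N := by ring
    rw [map_mul, map_pow] at h3
    have h4 : (v (2 : K) * v (δ : K) * v U ^ 2) * v U ≤ N * v U := by
      calc (v (2 : K) * v (δ : K) * v U ^ 2) * v U = v (δ : K) * (v (2 : K) * v U ^ 3) := by ring
        _ ≤ 1 * (v U * N) := by gcongr
        _ = N * v U := by ring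
    exact le_of_mul_le_mul_right h4 hvU
  · rw [hm]
    have e : 2 * V * A - U * B = 2 * δ * V ^ 3 := by rw [hA, hB]; ring
    have h3 : v (2 * δ * V ^ 3) ≤ v V * N := by
      rw [← e]
      apply fin_sub
      · rw [map_mul, map_mul]
        calc v (2 : K) * v V * v A ≤ 1 * v V * N := by gcongr
          _ = v V * N := by ring
      · rw [map_mul]
        exact mul_le_mul hle.le hNB (fin_nonneg v B) hvV.le
    rw [map_mul, map_mul, map_pow] at h3
    have h4 : (v (2 : K) * v (δ : K) * v V ^ 2) * v V ≤ N * v V := by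
      calc (v (2 : K) * v (δ : K) * v V ^ 2) * v V = v (2 : K) * v (δ : K) * v V ^ 3 := by ring
        _ ≤ v V * N := h3
        _ = N * v V := by ring
    exact le_of_mul_le_mul_right h4 hvV

/-- the second map: infinite places -/
lemma inf_second (w : InfinitePlace K) (δ : ℤ) (hδ : δ ≠ 0) (U V : K) (hU : U ≠ 0) (hV : V ≠ 0) :
    (max (w U) (w V)) ^ 2
      ≤ (3 + |(δ : ℝ)|) * max (w (U ^ 2 + δ * V ^ 2)) (w (2 * U * V)) := by
  set N := max (w (U ^ 2 + δ * V ^ 2)) (w (2 * U * V)) with hN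
  set A := U ^ 2 + δ * V ^ 2 with hA
  set B := 2 * U * V with hB
  have hvU : 0 < w U := w.1.pos hU
  have hvV : 0 < w V := w.1.pos hV
  have hNA : w A ≤ N := le_max_left _ _
  have hNB : w B ≤ N := le_max_right _ _
  have hN0 : 0 ≤ N := (inf_nonneg w A).trans hNA
  have h2 : w (2 : K) = 2 := by
    have := inf_nat w 2
    simpa using this
  have hδw : w (δ : K) = |(δ : ℝ)| := inf_int w δ
  have hδ1 : (1 : ℝ) ≤ |(δ : ℝ)| := by exact_mod_cast Int.one_le_abs hδ
  rcases max_cases (w U) (w V) with ⟨hm, hle⟩ | ⟨hm, hle⟩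
  · rw [hm]
    have e : 2 * U * A - δ * V * B = 2 * U ^ 3 := by rw [hA, hB]; ring
    have h3 : w (2 * U ^ 3) ≤ (2 + |(δ : ℝ)|) * N * w U := by
      rw [← e]
      refine (inf_sub w _ _).trans ?_
      rw [map_mul, map_mul, map_mul, map_mul, h2, hδw]
      have h5 : 2 * w U * w A ≤ 2 * w U * N := by gcongr
      have h6 : |(δ : ℝ)| * w V * w B ≤ |(δ : ℝ)| * w U * N := by gcongr
      linarith
    rw [map_mul, map_pow, h2] at h3
    have h4 : w U ^ 2 * w U ≤ ((3 + |(δ : ℝ)|) * N) * w U := by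
      have h5 : 0 ≤ N * w U := by positivity
      have h6 : 0 ≤ w U ^ 3 := by positivity
      nlinarith
    exact le_of_mul_le_mul_right h4 hvU
  · rw [hm]
    have e : 2 * V * A - U * B = 2 * δ * V ^ 3 := by rw [hA, hB]; ring
    have h3 : w (2 * δ * V ^ 3) ≤ 3 * N * w V := by
      rw [← e]
      refine (inf_sub w _ _).trans ?_
      rw [map_mul, map_mul, map_mul, h2]
      have h5 : 2 * w V * w A ≤ 2 * w V * N := by gcongr
      have h6 : w U * w B ≤ w V * N := mul_le_mul hle.le hNB (inf_nonneg w B) hvV.le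
      linarith
    rw [map_mul, map_mul, map_pow, h2, hδw] at h3
    have h4 : w V ^ 2 * w V ≤ ((3 + |(δ : ℝ)|) * N) * w V := by
      have h5 : 0 ≤ N * w V := by positivity
      have h6 : 0 ≤ w V ^ 3 := by positivity
      nlinarith
    exact le_of_mul_le_mul_right h4 hvV

end Pool.Agent.Q245.Vk
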