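import Pool.Agent.Q245.Vk.Fin

set_option autoImplicit false
set_option maxHeartbeats 1000000

namespace Pool.Agent.Q245.Vk

open NumberField Height

/-- the inequality for `∞ + {t² = δ}`, not normalised -/
def Vm (𝒞 : ∀ (K : Type) [Field K] [NumberField K], Prop) (δ : ℤ) : Prop :=
  ∀ ε : ℝ, 0 < ε → ∃ C : ℝ, ∀ (K : Type) [Field K] [NumberField K], 𝒞 K →
    ∀ t : K, t ^ 2 ≠ δ →
    (1 - ε) * logHeight₁ t ≤ ∑ᶠ v ∈ Sm δ t, lN v + Real.log |(discr K : ℝ)|
      + C * Module.finrank ℚ K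

/-- the inequality for `0 + 1 + ∞`, not normalised -/
def V0 (𝒞 : ∀ (K : Type) [Field K] [NumberField K], Prop) : Prop :=
  ∀ ε : ℝ, 0 < ε → ∃ C : ℝ, ∀ (K : Type) [Field K] [NumberField K], 𝒞 K →
    ∀ x : K, x ≠ 0 → x ≠ 1 →
    (1 - ε) * logHeight₁ x ≤ ∑ᶠ v ∈ S0 x, lN v + Real.log |(discr K : ℝ)|
      + C * Module.finrank ℚ K

lemma sum_nonneg {K : Type} [Field K] [NumberField K] (S : Set (FinitePlace K)) :
    0 ≤ ∑ᶠ v ∈ S, lN v := by
  rw [finsum_mem_def]
  exact finsum_nonneg fun v => Set.indicator_nonneg (fun v _ => lN_nonneg v) v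

lemma logdisc_nonneg (K : Type) [Field K] [NumberField K] : 0 ≤ Real.log |(discr K : ℝ)| := by
  apply Real.log_nonneg
  exact_mod_cast Int.one_le_abs (discr_ne_zero K)

lemma height_neg_one {K : Type} [Field K] [NumberField K] : logHeight₁ (-1 : K) = 0 := by
  have h := height_int (K := K) (δ := -1) (by norm_num)
  push_cast at h
  rw [h]
  simp

theorem fwd (𝒞 : ∀ (K : Type) [Field K] [NumberField K], Prop) (δ : ℤ) (Q : ℕ)
    (hQ : Concl δ Q) (h : Vm 𝒞 δ) : V0 𝒞 := by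
  intro ε hε
  obtain ⟨C1, hC1, H⟩ := hQ
  by_cases h1 : 1 ≤ ε
  · refine ⟨0, ?_⟩
    intro K _ _ _ x _ _
    have a1 := sum_nonneg (S0 x)
    have a2 := logdisc_nonneg K
    have a3 : 0 ≤ logHeight₁ x := zero_le_logHeight₁ x
    have a4 : (1 - ε) * logHeight₁ x ≤ 0 := mul_nonpos_of_nonpos_of_nonneg (by linarith) a3
    linarith
  push Not at h1
  set D : ℝ := 2 * Q + 4 with hD
  have hQ0 : (0 : ℝ) ≤ Q := Nat.cast_nonneg Q
  have hD4 : 4 ≤ D := by rw [hD]; linarith
  have hD0 : 0 < D := by linarith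
  obtain ⟨C, hC⟩ := h (ε / D) (by positivity)
  refine ⟨|C| + 2 * C1, ?_⟩
  intro K _ _ hK x hx0 hx1
  have a1 := sum_nonneg (S0 x)
  have a2 := logdisc_nonneg K
  have a3 : 0 ≤ logHeight₁ x := zero_le_logHeight₁ x
  have hdeg : (0 : ℝ) < Module.finrank ℚ K := by exact_mod_cast Module.finrank_pos
  set n : ℝ := (Module.finrank ℚ K : ℝ) with hn
  have a4 : 0 ≤ |C| * n := by positivity
  have a5 : 0 ≤ C1 * n := by positivity
  have a6 : C * n ≤ |C| * n := mul_le_mul_of_nonneg_right (le_abs_self C) hdeg.le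
  by_cases hxm : x = -1
  · subst hxm
    rw [height_neg_one, mul_zero]
    nlinarith
  rcases H K x hx0 hx1 hxm with h2 | ⟨t, ht, h2, h3⟩
  · have h5 : (1 - ε) * logHeight₁ x ≤ logHeight₁ x := by nlinarith
    nlinarith
  · have h5 := hC K hK t (sub_ne_zero.mp ht)
    have hd1 : ε / D ≤ 1 := by
      rw [div_le_one hD0]; linarith
    have hd0 : 0 ≤ ε / D := by positivity
    have h6 : (1 - ε / D) * (D * logHeight₁ x) ≤ (1 - ε / D) * (logHeight₁ t + C1 * n) :=
      mul_le_mul_of_nonneg_left h2 (by linarith)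
    have h7 : (1 - ε / D) * (D * logHeight₁ x) = (D - ε) * logHeight₁ x := by
      field_simp
    have h8 : (1 - ε / D) * (C1 * n) ≤ C1 * n := by
      have : 0 ≤ (ε / D) * (C1 * n) := mul_nonneg hd0 a5
      linarith
    have h9 : (2 * (Q : ℝ) + 3) = D - 1 := by rw [hD]; ring
    rw [h9] at h3
    rw [h7] at h6
    have h10 : (D - ε) * logHeight₁ x
        ≤ ∑ᶠ v ∈ S0 x, lN v + (D - 1) * logHeight₁ x + C1 * n + Real.log |(discr K : ℝ)|
          + C * n + C1 * n := by linarith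
    linarith

theorem bwd (𝒞 : ∀ (K : Type) [Field K] [NumberField K], Prop) (δ : ℤ) (hδ : δ ≠ 0)
    (h : V0 𝒞) : Vm 𝒞 δ := by
  intro ε hε
  by_cases h1 : 1 ≤ ε
  · refine ⟨0, ?_⟩
    intro K _ _ _ x _
    have a1 := sum_nonneg (Sm δ x)
    have a2 := logdisc_nonneg K
    have a3 : 0 ≤ logHeight₁ x := zero_le_logHeight₁ x
    have a4 : (1 - ε) * logHeight₁ x ≤ 0 := mul_nonpos_of_nonpos_of_nonneg (by linarith) a3
    linarith
  push Not at h1
  obtain ⟨C, hC⟩ := h (ε / 2) (by positivity)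
  have hδn : δ.natAbs ≠ 0 := Int.natAbs_ne_zero.mpr hδ
  have hδR : (1 : ℝ) ≤ |(δ : ℝ)| := by exact_mod_cast Int.one_le_abs hδ
  have hδA : (1 : ℝ) ≤ (δ.natAbs : ℝ) := by
    exact_mod_cast Nat.one_le_iff_ne_zero.mpr hδn
  have hl0 : 0 ≤ Real.log (δ.natAbs : ℝ) := Real.log_nonneg hδA
  refine ⟨|C| + 2 * Real.log (δ.natAbs : ℝ), ?_⟩
  intro K _ _ hK t ht
  have a1 := sum_nonneg (Sm δ t)
  have a2 := logdisc_nonneg K
  have a3 : 0 ≤ logHeight₁ t := zero_le_logHeight₁ t
  have hdeg : (0 : ℝ) < Module.finrank ℚ K := by exact_mod_cast Module.finrank_pos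
  set n : ℝ := (Module.finrank ℚ K : ℝ) with hn
  have a4 : 0 ≤ |C| * n := by positivity
  have a5 : 0 ≤ Real.log (δ.natAbs : ℝ) * n := by positivity
  have a6 : C * n ≤ |C| * n := mul_le_mul_of_nonneg_right (le_abs_self C) hdeg.le
  by_cases ht0 : t = 0
  · subst ht0
    rw [logHeight₁_zero, mul_zero]
    nlinarith
  have hδK : (δ : K) ≠ 0 := by exact_mod_cast hδ
  have hx0 : t ^ 2 / (δ : K) ≠ 0 := div_ne_zero (pow_ne_zero 2 ht0) hδK
  have hx1 : t ^ 2 / (δ : K) ≠ 1 := by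
    intro h2
    rw [div_eq_one_iff_eq hδK] at h2
    exact ht h2
  have h2 := hC K hK _ hx0 hx1
  have h3 := height_lower t (t ^ 2) (δ : K) hδK δ.natAbs hδn 2 1 one_pos
    (by
      intro v
      rw [v_natAbs]
      have k1 : v (δ : K) ≤ 1 := int_le v δ
      have k0 : 0 ≤ v (δ : K) := fin_nonneg v _
      rcases le_total (v t) 1 with h4 | h4
      · rw [max_eq_right h4, one_pow, mul_one]
        exact le_max_right _ _
      · rw [max_eq_left h4, map_pow]
        refine le_max_of_le_left ?_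
        exact mul_le_of_le_one_left (by positivity) k1)
    (by
      intro w
      rw [one_mul, inf_int, map_pow]
      rcases le_total (w t) 1 with h4 | h4
      · rw [max_eq_right h4, one_pow]
        exact le_max_of_le_right hδR
      · rw [max_eq_left h4]
        exact le_max_left _ _)
  rw [Real.log_one, add_zero] at h3
  push_cast at h3
  have h4 := transfer t t δ.natAbs hδn 1 1 one_pos ht0 (Sm δ t) (S0 (t ^ 2 / (δ : K)))
    (Sm_finite (sub_ne_zero.mpr ht))
    (by intro v; rw [pow_one]; exact le_max_left _ _)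
    (by intro w; rw [pow_one, one_mul]; exact le_max_left _ _)
    (by
      intro v hv hc hE hmem
      rw [pow_one] at hE
      rw [v_natAbs] at hc
      unfold Sm at hv
      simp only [Set.mem_ofPred_eq, not_or, not_lt] at hv
      obtain ⟨hv1, hv2⟩ := hv
      have hvt : v t = 1 := by
        rw [max_eq_right hv1] at hE
        exact hE
      apply hmem
      constructor
      · rw [map_div₀, map_pow, hvt, hc]; norm_num
      · have e : 1 - t ^ 2 / (δ : K) = -(t ^ 2 - δ) / δ := by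
          field_simp
          ring
        rw [e, map_div₀, fin_neg, hc, div_one]
        apply le_antisymm _ hv2
        apply fin_sub
        · rw [map_pow, hvt, one_pow]
        · exact hc.le)
  rw [Real.log_one, add_zero, Nat.cast_one, one_mul] at h4
  have e1 : (0 : ℝ) ≤ 1 - ε / 2 := by linarith
  have h5 : (1 - ε / 2) * (2 * logHeight₁ t)
      ≤ (1 - ε / 2) * (logHeight₁ (t ^ 2 / (δ : K)) + n * Real.log (δ.natAbs : ℝ)) :=
    mul_le_mul_of_nonneg_left h3 e1
  have h6 : (1 - ε / 2) * (n * Real.log (δ.natAbs : ℝ)) ≤ n * Real.log (δ.natAbs : ℝ) := by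
    have : 0 ≤ (ε / 2) * (n * Real.log (δ.natAbs : ℝ)) := by positivity
    linarith
  linarith

theorem main (𝒞 : ∀ (K : Type) [Field K] [NumberField K], Prop) (δ : ℤ) (j : ℕ) (m : ℤ)
    (hm : Odd m) (hδ : δ = 4 ^ j * m) : Vm 𝒞 δ ↔ V0 𝒞 := by
  have hm0 : m ≠ 0 := by
    rintro rfl
    simp at hm
  have hδ0 : δ ≠ 0 := by
    rw [hδ]; positivity
  obtain ⟨Q, hQ⟩ := exists_concl δ j m hm hδ
  exact ⟨fwd 𝒞 δ Q hQ, bwd 𝒞 δ hδ0⟩

end Pool.Agent.Q245.Vk
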