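import Pool.Agent.Q245.Vk.Local

set_option autoImplicit false
set_option maxHeartbeats 1000000

namespace Pool.Agent.Q245.Vk

open NumberField Height

/-- the finite places at which `x` or `1 - x` is not a unit -/
def S0 {K : Type} [Field K] [NumberField K] (x : K) : Set (FinitePlace K) :=
  {v | ¬ (v x = 1 ∧ v (1 - x) = 1)}

/-- the finite places at which `t` reduces to `∞` or to a zero of `t² - δ` -/
def Sm {K : Type} [Field K] [NumberField K] (δ : ℤ) (t : K) : Set (FinitePlace K) :=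
  {v | 1 < v t ∨ v (t ^ 2 - δ) < 1}

lemma S0_finite {K : Type} [Field K] [NumberField K] {x : K} (h0 : x ≠ 0) (h1 : x ≠ 1) :
    (S0 x).Finite := by
  refine ((fin_ne_one h0).union (fin_ne_one (sub_ne_zero.mpr h1.symm))).subset fun v hv => ?_
  by_contra hcon
  rw [Set.mem_union, not_or] at hcon
  simp only [Set.mem_ofPred_eq, not_not] at hcon
  exact hv hcon

lemma Sm_finite {K : Type} [Field K] [NumberField K] {δ : ℤ} {t : K} (ht : t ^ 2 - δ ≠ 0) :
    (Sm δ t).Finite := by
  refine ((max_finite t).union (fin_ne_one ht)).subset fun v hv => ?_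
  by_contra hcon
  rw [Set.mem_union, not_or] at hcon
  simp only [Set.mem_ofPred_eq, not_not] at hcon
  rcases hv with h | h
  · rw [max_eq_left h.le] at hcon
    linarith [hcon.1]
  · linarith [hcon.2]

lemma v_natAbs {K : Type} [Field K] [NumberField K] (v : FinitePlace K) (δ : ℤ) :
    v ((δ.natAbs : ℕ) : K) = v (δ : K) := by
  rcases Int.natAbs_eq δ with h | h
  · have : (δ : K) = ((δ.natAbs : ℕ) : K) := by
      calc (δ : K) = (((δ.natAbs : ℕ) : ℤ) : K) := by rw [← h]
        _ = ((δ.natAbs : ℕ) : K) := Int.cast_natCast _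
    rw [this]
  · have : (δ : K) = -((δ.natAbs : ℕ) : K) := by
      calc (δ : K) = ((-((δ.natAbs : ℕ) : ℤ) : ℤ) : K) := by rw [← h]
        _ = -(((δ.natAbs : ℕ) : ℤ) : K) := Int.cast_neg _
        _ = -((δ.natAbs : ℕ) : K) := by rw [Int.cast_natCast]
    rw [this, fin_neg]

lemma eq_one_of_mul {a b : ℝ} (ha0 : 0 ≤ a) (ha : a ≤ 1) (hb0 : 0 ≤ b) (hb : b ≤ 1)
    (h : a * b = 1) : a = 1 ∧ b = 1 := by
  constructor
  · nlinarith
  · nlinarith

theorem combine (δ : ℤ) (hδ : δ ≠ 0) (Q p c2 c3 : ℕ) (hp : p ≠ 0) (hc2 : c2 ≠ 0) (hc3 : c3 ≠ 0)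
    (T0 C2 : ℝ) (hT0 : 0 < T0) (hC2 : 0 < C2) : ∃ C1 : ℝ, 0 ≤ C1 ∧
      ∀ (K : Type) [Field K] [NumberField K] (z U V u u' : K), z ≠ 0 → z ≠ 1 → z ≠ -1 →
      U ≠ 0 → V ≠ 0 →
      (p : K) * (U ^ 2 - δ * V ^ 2) = -δ * ((u - u') ^ 2 * SS u u' Q) →
      (∀ v : FinitePlace K, v u ≤ (max (v z) 1) ^ 2 ∧ v u' ≤ (max (v z) 1) ^ 2) →
      (∀ w : InfinitePlace K, w u ≤ T0 * (max (w z) 1) ^ 2 ∧ w u' ≤ T0 * (max (w z) 1) ^ 2) →
      (∀ v : FinitePlace K, v (c2 : K) * (max (v z) 1) ^ (Q + 2) ≤ max (v U) (v V)) →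
      (∀ w : InfinitePlace K, (max (w z) 1) ^ (Q + 2) ≤ C2 * max (w U) (w V)) →
      (∀ v : FinitePlace K, v z = 1 → v (1 - z) = 1 → v (z + 1) = 1 → v (c3 : K) = 1 →
        v U = 1 ∧ v V = 1) →
      logHeight₁ z ≤ C1 * Module.finrank ℚ K ∨
      ∃ t : K, t ^ 2 - δ ≠ 0 ∧
        (2 * Q + 4) * logHeight₁ z ≤ logHeight₁ t + C1 * Module.finrank ℚ K ∧
        ∑ᶠ v ∈ Sm δ t, lN v ≤ ∑ᶠ v ∈ S0 z, lN v + (2 * Q + 3) * logHeight₁ z
          + C1 * Module.finrank ℚ K := by
  have hδR : (1 : ℝ) ≤ |(δ : ℝ)| := by exact_mod_cast Int.one_le_abs hδ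
  set A1 : ℝ := Real.log |(δ : ℝ)| / 2 + Real.log c2 + Real.log C2 with hA1
  set cc : ℕ := 2 * δ.natAbs * c2 ^ 2 with hcc
  have hδn : δ.natAbs ≠ 0 := Int.natAbs_ne_zero.mpr hδ
  have hcc0 : cc ≠ 0 := by
    rw [hcc]; positivity
  set CC : ℝ := (3 + |(δ : ℝ)|) * C2 ^ 2 with hCC
  have hCC0 : 0 < CC := by positivity
  set cd : ℕ := 2 * δ.natAbs * p * c3 with hcd
  have hcd0 : cd ≠ 0 := by
    rw [hcd]; positivity
  have hKc : (0 : ℝ) < Kc Q := by exact_mod_cast Kc_pos Q
  set CE : ℝ := 2 * (2 * T0) * (Kc Q * T0 ^ Q) with hCE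
  have hCE0 : 0 < CE := by positivity
  set C1 : ℝ := |A1| + |Real.log cc + Real.log CC| + |Real.log cd + Real.log CE| with hC1
  refine ⟨C1, by positivity, ?_⟩
  intro K _ _ z U V u u' hz0 hz1 hzm hU hV hid hfu hiu hfl hil hfu1
  have hdeg : (0 : ℝ) < Module.finrank ℚ K := by exact_mod_cast Module.finrank_pos
  have hh0 : 0 ≤ logHeight₁ z := zero_le_logHeight₁ z
  have b1 : A1 ≤ C1 := by
    rw [hC1]; linarith [le_abs_self A1, abs_nonneg (Real.log cc + Real.log CC),
      abs_nonneg (Real.log cd + Real.log CE)]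
  have b2 : Real.log cc + Real.log CC ≤ C1 := by
    rw [hC1]; linarith [le_abs_self (Real.log cc + Real.log CC), abs_nonneg A1,
      abs_nonneg (Real.log cd + Real.log CE)]
  have b3 : Real.log cd + Real.log CE ≤ C1 := by
    rw [hC1]; linarith [le_abs_self (Real.log cd + Real.log CE), abs_nonneg A1,
      abs_nonneg (Real.log cc + Real.log CC)]
  set W : K := U ^ 2 - δ * V ^ 2 with hW
  by_cases hW0 : W = 0
  · left
    have h1 := height_lower z U V hV c2 hc2 (Q + 2) C2 hC2 hfl hil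
    have h2 : (U / V) ^ 2 = (δ : K) := by
      rw [div_pow, div_eq_iff (pow_ne_zero 2 hV)]
      exact sub_eq_zero.mp hW0
    have h3 : 2 * logHeight₁ (U / V) = Module.finrank ℚ K * Real.log |(δ : ℝ)| := by
      rw [← height_int hδ, ← h2, logHeight₁_pow]
      push_cast
      ring
    have h4 : logHeight₁ z ≤ ((Q + 2 : ℕ) : ℝ) * logHeight₁ z := by
      refine le_mul_of_one_le_left hh0 ?_
      push_cast
      have : (0 : ℝ) ≤ Q := by positivity
      linarith
    have h5 : A1 * Module.finrank ℚ K ≤ C1 * Module.finrank ℚ K :=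
      mul_le_mul_of_nonneg_right b1 hdeg.le
    calc logHeight₁ z ≤ ((Q + 2 : ℕ) : ℝ) * logHeight₁ z := h4
      _ ≤ logHeight₁ (U / V) + Module.finrank ℚ K * (Real.log c2 + Real.log C2) := h1
      _ = A1 * Module.finrank ℚ K := by
          have : logHeight₁ (U / V) = Module.finrank ℚ K * Real.log |(δ : ℝ)| / 2 := by linarith
          rw [this, hA1]; ring
      _ ≤ _ := h5
  right
  have hpK : (p : K) ≠ 0 := by exact_mod_cast hp
  have h2K : (2 : K) ≠ 0 := two_ne_zero
  have hb0 : 2 * U * V ≠ 0 := mul_ne_zero (mul_ne_zero h2K hU) hV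
  have hpW : (p : K) * W ≠ 0 := mul_ne_zero hpK hW0
  have huu : u - u' ≠ 0 := by
    intro h0
    apply hpW
    rw [hid, h0]; ring
  have hSS : SS u u' Q ≠ 0 := by
    intro h0
    apply hpW
    rw [hid, h0]; ring
  have hz1' : z + 1 ≠ 0 := fun h => hzm (eq_neg_of_add_eq_zero_left h)
  set t : K := (U ^ 2 + δ * V ^ 2) / (2 * U * V) with ht
  have ht2 : t ^ 2 - δ = W ^ 2 / (2 * U * V) ^ 2 := by
    rw [ht, hW]
    field_simp
    ring
  refine ⟨t, ?_, ?_, ?_⟩
  · rw [ht2]
    exact div_ne_zero (pow_ne_zero 2 hW0) (pow_ne_zero 2 hb0)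
  · -- height
    have h1 := height_lower z (U ^ 2 + δ * V ^ 2) (2 * U * V) hb0 cc hcc0 (2 * (Q + 2)) CC hCC0
      (by
        intro v
        have h2 := fin_second v δ U V hU hV
        have h3 := hfl v
        have e1 : v (cc : K) = v ((2 * δ : ℤ) : K) * v (c2 : K) ^ 2 := by
          rw [hcc]; push_cast
          rw [map_mul, map_mul, map_pow, map_mul, v_natAbs]
        have h4 : (v (c2 : K) * (max (v z) 1) ^ (Q + 2)) ^ 2 ≤ (max (v U) (v V)) ^ 2 := by
          apply pow_le_pow_left₀ _ h3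
          exact mul_nonneg (fin_nonneg v _) (pow_nonneg (le_max_of_le_right zero_le_one) _)
        rw [e1]
        calc v ((2 * δ : ℤ) : K) * v (c2 : K) ^ 2 * (max (v z) 1) ^ (2 * (Q + 2))
            = v ((2 * δ : ℤ) : K) * (v (c2 : K) * (max (v z) 1) ^ (Q + 2)) ^ 2 := by
              rw [mul_pow, ← pow_mul, mul_comm (Q + 2) 2]; ring
          _ ≤ v ((2 * δ : ℤ) : K) * (max (v U) (v V)) ^ 2 :=
              mul_le_mul_of_nonneg_left h4 (fin_nonneg v _)
          _ ≤ _ := h2)
      (by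
        intro w
        have h2 := inf_second w δ hδ U V hU hV
        have h3 := hil w
        have h4 : ((max (w z) 1) ^ (Q + 2)) ^ 2 ≤ (C2 * max (w U) (w V)) ^ 2 := by
          apply pow_le_pow_left₀ _ h3
          exact pow_nonneg (le_max_of_le_right zero_le_one) _
        calc (max (w z) 1) ^ (2 * (Q + 2)) = ((max (w z) 1) ^ (Q + 2)) ^ 2 := by
              rw [← pow_mul, mul_comm (Q + 2) 2]
          _ ≤ (C2 * max (w U) (w V)) ^ 2 := h4
          _ = C2 ^ 2 * (max (w U) (w V)) ^ 2 := by ring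
          _ ≤ C2 ^ 2 * ((3 + |(δ : ℝ)|) * max (w (U ^ 2 + δ * V ^ 2)) (w (2 * U * V))) :=
              mul_le_mul_of_nonneg_left h2 (by positivity)
          _ = _ := by rw [hCC]; ring)
    have e2 : ((2 * (Q + 2) : ℕ) : ℝ) = 2 * Q + 4 := by push_cast; ring
    rw [e2, ← ht] at h1
    have h5 : (Real.log cc + Real.log CC) * Module.finrank ℚ K ≤ C1 * Module.finrank ℚ K :=
      mul_le_mul_of_nonneg_right b2 hdeg.le
    linarith
  · -- the counting function
    have h1 := transfer z ((z + 1) * ((u - u') * SS u u' Q)) cd hcd0 (2 * Q + 3) CE hCE0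
      (mul_ne_zero hz1' (mul_ne_zero huu hSS)) (S0 z) (Sm δ t) (S0_finite hz0 hz1)
      (by
        intro v
        obtain ⟨a1, a2⟩ := hfu v
        set M := max (v z) 1 with hM
        have hM1 : 1 ≤ M := le_max_right _ _
        have h2 : v (z + 1) ≤ M := fin_add v z 1 (le_max_left _ _) (by rw [map_one]; exact hM1)
        have h3 : v (u - u') ≤ M ^ 2 := fin_sub v u u' a1 a2
        have h4 := fin_SS v u u' a1 a2 Q
        rw [map_mul, map_mul]
        calc v (z + 1) * (v (u - u') * v (SS u u' Q)) ≤ M * (M ^ 2 * (M ^ 2) ^ Q) := by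
              apply mul_le_mul h2 _ (mul_nonneg (fin_nonneg v _) (fin_nonneg v _)) (by linarith)
              exact mul_le_mul h3 h4 (fin_nonneg v _) (by positivity)
          _ = M ^ (2 * Q + 3) := by rw [← pow_mul]; ring)
      (by
        intro w
        obtain ⟨a1, a2⟩ := hiu w
        set M := max (w z) 1 with hM
        have hM1 : 1 ≤ M := le_max_right _ _
        have h2 : w (z + 1) ≤ 2 * M := by
          refine (inf_add w z 1).trans ?_
          rw [map_one]
          linarith [le_max_left (w z) 1]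
        have h3 : w (u - u') ≤ 2 * T0 * M ^ 2 := by
          refine (inf_sub w u u').trans ?_
          linarith
        have h4 := inf_SS w u u' a1 a2 Q
        rw [map_mul, map_mul]
        calc w (z + 1) * (w (u - u') * w (SS u u' Q))
            ≤ (2 * M) * ((2 * T0 * M ^ 2) * (Kc Q * (T0 * M ^ 2) ^ Q)) := by
              apply mul_le_mul h2 _ (mul_nonneg (inf_nonneg w _) (inf_nonneg w _)) (by linarith)
              exact mul_le_mul h3 h4 (inf_nonneg w _) (by positivity)
          _ = CE * M ^ (2 * Q + 3) := by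
              rw [hCE, mul_pow, ← pow_mul]; ring)
      (by
        intro v hvS hcv hEv
        unfold S0 at hvS
        simp only [Set.mem_ofPred_eq, not_not] at hvS
        obtain ⟨hvz, hvz1⟩ := hvS
        rw [hvz, max_self, one_pow, map_mul, map_mul] at hEv
        obtain ⟨a1, a2⟩ := hfu v
        rw [hvz, max_self, one_pow] at a1 a2
        have h2 : v (z + 1) ≤ 1 := fin_add v z 1 hvz.le (by rw [map_one])
        have h3 : v (u - u') ≤ 1 := fin_sub v u u' a1 a2
        have h4 : v (SS u u' Q) ≤ 1 := by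
          have := fin_SS v u u' a1 a2 Q
          rwa [one_pow] at this
        obtain ⟨e1, e2⟩ := eq_one_of_mul (fin_nonneg v _) h2
          (mul_nonneg (fin_nonneg v _) (fin_nonneg v _))
          (mul_le_one₀ h3 (fin_nonneg v _) h4) hEv
        obtain ⟨e3, e4⟩ := eq_one_of_mul (fin_nonneg v _) h3 (fin_nonneg v _) h4 e2
        -- the constants
        rw [hcd] at hcv
        push_cast at hcv
        rw [map_mul, map_mul, map_mul, v_natAbs] at hcv
        have k2 : v (2 : K) ≤ 1 := by simpa using nat_le v 2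
        have kδ : v (δ : K) ≤ 1 := int_le v δ
        have kp : v (p : K) ≤ 1 := nat_le v p
        have kc : v (c3 : K) ≤ 1 := nat_le v c3
        have n2 : 0 ≤ v (2 : K) := fin_nonneg v _
        have nδ : 0 ≤ v (δ : K) := fin_nonneg v _
        have np : 0 ≤ v (p : K) := fin_nonneg v _
        have nc : 0 ≤ v (c3 : K) := fin_nonneg v _
        obtain ⟨f1, f2⟩ := eq_one_of_mul (by positivity)
          (mul_le_one₀ (mul_le_one₀ k2 nδ kδ) np kp) nc kc hcv
        obtain ⟨f3, f4⟩ := eq_one_of_mul (by positivity) (mul_le_one₀ k2 nδ kδ) np kp f1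
        obtain ⟨f5, f6⟩ := eq_one_of_mul n2 k2 nδ kδ f3
        obtain ⟨gU, gV⟩ := hfu1 v hvz hvz1 e1 f2
        have gW : v W = 1 := by
          have h5 : v ((p : K) * W) = v (-δ * ((u - u') ^ 2 * SS u u' Q)) := by rw [hid]
          rw [map_mul, map_mul, map_mul, map_pow, fin_neg, f4, f6, e3, e4] at h5
          simpa using h5
        have gb : v (2 * U * V) = 1 := by
          rw [map_mul, map_mul, f5, gU, gV]; norm_num
        have ga : v (U ^ 2 + δ * V ^ 2) ≤ 1 := by
          apply fin_add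
          · rw [map_pow, gU]; norm_num
          · rw [map_mul, map_pow, f6, gV]; norm_num
        intro hmem
        rcases hmem with h5 | h5
        · rw [ht, map_div₀, gb, div_one] at h5
          linarith
        · rw [ht2, map_div₀, map_pow, map_pow, gW, gb] at h5
          norm_num at h5)
    have e2 : ((2 * Q + 3 : ℕ) : ℝ) = 2 * Q + 3 := by push_cast; ring
    rw [e2] at h1
    have h5 : (Real.log cd + Real.log CE) * Module.finrank ℚ K ≤ C1 * Module.finrank ℚ K :=
      mul_le_mul_of_nonneg_right b3 hdeg.le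
    linarith

end Pool.Agent.Q245.Vk
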